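import Pool.Agent.H677.JS.Graph
import Pool.Agent.H677.FE.Reduce

/-!
# The reduction on adjacency matrices
-/

set_option autoImplicit false
set_option linter.unusedSectionVars false

namespace Pool.Agent.NPC.JS677

open Finset Pool.Agent.H677.FE Pool.Agent.NPC.UB129 Pool.Agent.NPC.R671 Pool.Agent.NPC.FE677
  Pool.Agent.H677.JS

/-! ### Cones -/

/-- The adjacency matrix of the cone. -/
def coneM (M : Mat) : Mat :=
  (List.range (M.length + 1)).map fun s => (List.range (M.length + 1)).map fun t =>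
    (!decide (s = t)) && ((!(decide (s < M.length) && decide (t < M.length))) || ent M s t)

theorem coneM_adjMatrix {n : ℕ} (G : SimpleGraph (Fin n)) :
    coneM (adjMatrix G) = adjMatrix (cone G) := by
  unfold coneM
  rw [length_adjMatrix]
  refine adjMatrix_of_test (cone G) (fun s t => (!decide (s = t)) &&
    ((!(decide (s < n) && decide (t < n))) || ent (adjMatrix G) s t)) fun s t => ?_
  have hst : ((s : ℕ) = t) ↔ s = t := Fin.ext_iff.symm
  rw [Bool.and_eq_true, Bool.or_eq_true, Bool.not_eq_true', Bool.not_eq_true',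
    decide_eq_false_iff_not, Bool.and_eq_false_iff, decide_eq_false_iff_not,
    decide_eq_false_iff_not, hst]
  show _ ↔ s ≠ t ∧ ∀ (h : (s : ℕ) < n) (h' : (t : ℕ) < n), G.Adj ⟨s, h⟩ ⟨t, h'⟩
  refine and_congr Iff.rfl ?_
  constructor
  · rintro (h | h) h1 h2
    · rcases h with h | h
      · exact absurd h1 h
      · exact absurd h2 h
    · exact (ent_adjMatrix G ⟨s, h1⟩ ⟨t, h2⟩).1 h
  · intro h
    by_cases h1 : (s : ℕ) < n
    · by_cases h2 : (t : ℕ) < n
      · exact Or.inr ((ent_adjMatrix G ⟨s, h1⟩ ⟨t, h2⟩).2 (h h1 h2))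
      · exact Or.inl (Or.inr h2)
    · exact Or.inl (Or.inl h1)

/-! ### Triples -/

/-- The increasing triples. -/
def trip (m : ℕ) : List (List ℕ) :=
  (List.range m).flatMap fun a => (List.range m).flatMap fun b => (List.range m).flatMap fun c =>
    bif decide (a < b) && decide (b < c) then [[a, b, c]] else []

theorem mem_trip {m : ℕ} {l : List ℕ} :
    l ∈ trip m ↔ ∃ a b c, a < b ∧ b < c ∧ c < m ∧ l = [a, b, c] := by
  unfold trip
  simp only [List.mem_flatMap, List.mem_range]
  constructor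
  · rintro ⟨a, ha, b, hb, c, hc, h⟩
    by_cases hab : a < b
    · by_cases hbc : b < c
      · rw [decide_eq_true hab, decide_eq_true hbc, Bool.and_self, cond_true,
          List.mem_singleton] at h
        exact ⟨a, b, c, hab, hbc, hc, h⟩
      · rw [decide_eq_false hbc, Bool.and_false, cond_false] at h
        exact absurd h List.not_mem_nil
    · rw [decide_eq_false hab, Bool.false_and, cond_false] at h
      exact absurd h List.not_mem_nil
  · rintro ⟨a, b, c, hab, hbc, hc, rfl⟩
    refine ⟨a, by omega, b, by omega, c, hc, ?_⟩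
    rw [decide_eq_true hab, decide_eq_true hbc, Bool.and_self, cond_true]
    exact List.mem_singleton_self _

theorem eq_of_mem_cond {b : Bool} {l x : List ℕ} (h : l ∈ (bif b then [x] else [])) : l = x := by
  cases b
  · exact absurd h List.not_mem_nil
  · exact List.mem_singleton.1 h

theorem nodup_trip (m : ℕ) : (trip m).Nodup := by
  unfold trip
  have hc : ∀ a b, ((List.range m).flatMap fun c =>
      bif decide (a < b) && decide (b < c) then [[a, b, c]] else []).Nodup := by
    intro a b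
    rw [List.nodup_flatMap]
    refine ⟨fun c _ => ?_, ?_⟩
    · cases decide (a < b) && decide (b < c)
      · exact List.nodup_nil
      · exact List.nodup_singleton _
    · refine List.Pairwise.imp_of_mem ?_ (List.nodup_range (n := m))
      intro c c' _ _ hne l h1 h2
      have e1 : l = [a, b, c] := eq_of_mem_cond h1
      have e2 : l = [a, b, c'] := eq_of_mem_cond h2
      rw [e1] at e2
      injection e2 with _ e2
      injection e2 with _ e2
      injection e2 with e2 _
      exact hne e2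
  have hmem : ∀ a b l, (l ∈ (List.range m).flatMap fun c =>
      bif decide (a < b) && decide (b < c) then [[a, b, c]] else []) → ∃ c, l = [a, b, c] := by
    intro a b l h
    rw [List.mem_flatMap] at h
    obtain ⟨c, _, h⟩ := h
    exact ⟨c, eq_of_mem_cond h⟩
  rw [List.nodup_flatMap]
  refine ⟨fun a _ => ?_, ?_⟩
  · rw [List.nodup_flatMap]
    refine ⟨fun b _ => hc a b, ?_⟩
    refine List.Pairwise.imp_of_mem ?_ (List.nodup_range (n := m))
    intro b b' _ _ hne l h1 h2
    obtain ⟨c, e1⟩ := hmem _ _ _ h1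
    obtain ⟨c', e2⟩ := hmem _ _ _ h2
    rw [e1] at e2
    injection e2 with _ e2
    injection e2 with e2 _
    exact hne e2
  · refine List.Pairwise.imp_of_mem ?_ (List.nodup_range (n := m))
    intro a a' _ _ hne l h1 h2
    rw [List.mem_flatMap] at h1 h2
    obtain ⟨b, _, h1⟩ := h1
    obtain ⟨b', _, h2⟩ := h2
    obtain ⟨c, e1⟩ := hmem _ _ _ h1
    obtain ⟨c', e2⟩ := hmem _ _ _ h2
    rw [e1] at e2
    injection e2 with e2 _
    exact hne e2

/-- The 3-subset of a triple. -/
theorem card_pts_trip {m : ℕ} {l : List ℕ} (h : l ∈ trip m) : (pts m l).card = 3 := by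
  obtain ⟨a, b, c, hab, hbc, hc, rfl⟩ := mem_trip.1 h
  rw [card_pts]
  · rfl
  · intro x hx
    simp only [List.mem_cons, List.not_mem_nil, or_false] at hx
    omega
  · simp only [List.nodup_cons, List.mem_cons, List.not_mem_nil, or_false, not_false_eq_true,
      List.nodup_nil, and_true]
    omega

/-- The numbering of the 3-subsets. -/
def tr (m : ℕ) (s : Fin (trip m).length) : Tr (Fin m) :=
  ⟨pts m (trip m)[s], card_pts_trip (List.getElem_mem s.isLt)⟩

theorem pts_inj {m : ℕ} {l l' : List ℕ} (h : l ∈ trip m) (h' : l' ∈ trip m)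
    (he : pts m l = pts m l') : l = l' := by
  obtain ⟨a, b, c, hab, hbc, hc, rfl⟩ := mem_trip.1 h
  obtain ⟨a', b', c', hab', hbc', hc', rfl⟩ := mem_trip.1 h'
  have key : ∀ x, x < m → ((x = a ∨ x = b ∨ x = c) ↔ (x = a' ∨ x = b' ∨ x = c')) := by
    intro x hx
    have h1 : (⟨x, hx⟩ : Fin m) ∈ pts m [a, b, c] ↔ (⟨x, hx⟩ : Fin m) ∈ pts m [a', b', c'] := by
      rw [he]
    rw [mem_pts, mem_pts] at h1
    simpa using h1
  have h1 := (key a (by omega)).1 (Or.inl rfl)
  have h2 := (key b (by omega)).1 (Or.inr (Or.inl rfl))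
  have h3 := (key c (by omega)).1 (Or.inr (Or.inr rfl))
  have h4 := (key a' (by omega)).2 (Or.inl rfl)
  have h5 := (key b' (by omega)).2 (Or.inr (Or.inl rfl))
  have h6 := (key c' (by omega)).2 (Or.inr (Or.inr rfl))
  have ea : a = a' := by omega
  have ec : c = c' := by omega
  have eb : b = b' := by omega
  rw [ea, eb, ec]

theorem tr_bijective (m : ℕ) : Function.Bijective (tr m) := by
  constructor
  · intro s t h
    have h1 := congrArg Subtype.val h
    have h2 := pts_inj (List.getElem_mem s.isLt) (List.getElem_mem t.isLt) h1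
    exact Fin.ext ((List.Nodup.getElem_inj_iff (nodup_trip m)).1 h2)
  · rintro ⟨T, hT⟩
    -- an ordering of the elements
    have hsort : ∃ a b c : Fin m, a < b ∧ b < c ∧ T = {a, b, c} := by
      obtain ⟨x, y, z, hxy, hxz, hyz, rfl⟩ := card_eq_three.1 hT
      rcases lt_or_gt_of_ne hxy with h1 | h1
      · rcases lt_or_gt_of_ne hyz with h2 | h2
        · exact ⟨x, y, z, h1, h2, rfl⟩
        · rcases lt_or_gt_of_ne hxz with h3 | h3
          · exact ⟨x, z, y, h3, h2, by ext w; simp only [mem_insert, mem_singleton]; tauto⟩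
          · exact ⟨z, x, y, h3, h1, by ext w; simp only [mem_insert, mem_singleton]; tauto⟩
      · rcases lt_or_gt_of_ne hxz with h2 | h2
        · exact ⟨y, x, z, h1, h2, by ext w; simp only [mem_insert, mem_singleton]; tauto⟩
        · rcases lt_or_gt_of_ne hyz with h3 | h3
          · exact ⟨y, z, x, h3, h2, by ext w; simp only [mem_insert, mem_singleton]; tauto⟩
          · exact ⟨z, y, x, h3, h1, by ext w; simp only [mem_insert, mem_singleton]; tauto⟩
    obtain ⟨a, b, c, hab, hbc, rfl⟩ := hsort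
    have hmem : [(a : ℕ), (b : ℕ), (c : ℕ)] ∈ trip m :=
      mem_trip.2 ⟨a, b, c, hab, hbc, c.isLt, rfl⟩
    obtain ⟨i, hi, h2⟩ := List.getElem_of_mem hmem
    refine ⟨⟨i, hi⟩, Subtype.ext ?_⟩
    show pts m (trip m)[i] = {a, b, c}
    rw [h2]
    ext w
    rw [mem_pts]
    simp only [List.mem_cons, List.not_mem_nil, or_false, mem_insert, mem_singleton, Fin.ext_iff]

/-- The numbering of the 3-subsets, as an equivalence. -/
noncomputable def trE (m : ℕ) : Fin (trip m).length ≃ Tr (Fin m) :=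
  Equiv.ofBijective (tr m) (tr_bijective m)

/-! ### The tests -/

/-- All elements of the list belong to one of two adjacent vertices. -/
def clB (M : Mat) (l : List ℕ) (u w : ℕ) : Bool :=
  ent M u w && l.all fun p => decide (p % M.length = u) || decide (p % M.length = w)

/-- Incidence of a pair with a triple. -/
def incB (M : Mat) (l : List ℕ) (x y : ℕ) : Bool :=
  ((decide (x ∈ l) && decide (y ∈ l)) && (List.range M.length).all fun u =>
    (List.range M.length).all fun w => !clB M l u w) ||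
  ((!(decide (x ∈ l) && decide (y ∈ l))) && (List.range M.length).any fun u =>
    (List.range M.length).any fun w => clB M l u w && clB M [x, y] u w)

/-- Adjacency. -/
def adjX (M : Mat) (s t : ℕ) : Bool :=
  (!decide (s = t)) && (List.range (M.length + M.length)).any fun x =>
    (List.range (M.length + M.length)).any fun y => (!decide (x = y)) &&
      (incB M ((trip (M.length + M.length)).getD s []) x y &&
        incB M ((trip (M.length + M.length)).getD t []) x y)

/-- The number of vertices. -/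
def numX (n : ℕ) : ℕ := (trip (n + n)).length

/-- The adjacency matrix of the graph of a graph. -/
def redX (M : Mat) : Mat :=
  (List.range (numX M.length)).map fun s => (List.range (numX M.length)).map fun t => adjX M s t

theorem clB_iff {n : ℕ} (G : SimpleGraph (Fin n)) (l : List ℕ) (u w : Fin n) :
    clB (adjMatrix G) l u w = true ↔
      G.Adj u w ∧ ∀ p ∈ l, p % n = u ∨ p % n = w := by
  unfold clB
  rw [Bool.and_eq_true, ent_adjMatrix, List.all_eq_true, length_adjMatrix]
  refine and_congr Iff.rfl (forall_congr' fun p => imp_congr_right fun _ => ?_)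
  rw [Bool.or_eq_true, decide_eq_true_eq, decide_eq_true_eq]

theorem clB_pts {n : ℕ} (G : SimpleGraph (Fin n)) {l : List ℕ} (hl : ∀ x ∈ l, x < n + n)
    (u w : Fin n) : clB (adjMatrix G) l u w = true ↔
      G.Adj u w ∧ pts (n + n) l ⊆ fib (pr n) u ∪ fib (pr n) w := by
  rw [clB_iff]
  refine and_congr Iff.rfl ?_
  constructor
  · intro h p hp
    rw [mem_pts] at hp
    rw [mem_union, mem_fib, mem_fib]
    rcases h p hp with h1 | h1
    · exact Or.inl (Fin.ext h1)
    · exact Or.inr (Fin.ext h1)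
  · intro h p hp
    have h1 : (⟨p, hl p hp⟩ : Fin (n + n)) ∈ pts (n + n) l := mem_pts.2 hp
    have h2 := h h1
    rw [mem_union, mem_fib, mem_fib] at h2
    rcases h2 with h2 | h2
    · exact Or.inl (congrArg (fun x : Fin n => (x : ℕ)) h2)
    · exact Or.inr (congrArg (fun x : Fin n => (x : ℕ)) h2)

theorem incB_iff {n : ℕ} (G : SimpleGraph (Fin n)) {l : List ℕ} (hl : l ∈ trip (n + n))
    {x y : Fin (n + n)} (hxy : x ≠ y) : incB (adjMatrix G) l x y = true ↔
      inc (YG G (pr n)) ⟨{x, y}, card_pair hxy⟩ ⟨pts (n + n) l, card_pts_trip hl⟩ := by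
  have hlt : ∀ z ∈ l, z < n + n := by
    obtain ⟨a, b, c, hab, hbc, hc, rfl⟩ := mem_trip.1 hl
    intro z hz
    simp only [List.mem_cons, List.not_mem_nil, or_false] at hz
    omega
  have hlt' : ∀ z ∈ [(x : ℕ), (y : ℕ)], z < n + n := by
    intro z hz
    have h1 := x.isLt
    have h2 := y.isLt
    simp only [List.mem_cons, List.not_mem_nil, or_false] at hz
    omega
  have hpair : pts (n + n) [(x : ℕ), (y : ℕ)] = {x, y} := by
    ext z
    rw [mem_pts]
    simp only [List.mem_cons, List.not_mem_nil, or_false, mem_insert, mem_singleton, Fin.ext_iff]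
  have hsub : ({x, y} : Finset (Fin (n + n))) ⊆ pts (n + n) l ↔ ((x : ℕ) ∈ l ∧ (y : ℕ) ∈ l) := by
    rw [insert_subset_iff, singleton_subset_iff, mem_pts, mem_pts]
  unfold incB inc
  rw [Bool.or_eq_true, Bool.and_eq_true, Bool.and_eq_true, Bool.and_eq_true, Bool.not_eq_true',
    ← Bool.not_eq_true, Bool.and_eq_true, decide_eq_true_eq, decide_eq_true_eq, List.all_eq_true,
    List.any_eq_true, length_adjMatrix]
  refine or_congr (and_congr hsub.symm ?_) ?_
  · constructor
    · intro h S hS hT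
      obtain ⟨u, w, huw, rfl⟩ := YG_iff.1 hS
      have h1 := h u (List.mem_range.2 u.isLt)
      rw [List.all_eq_true] at h1
      have h2 := h1 w (List.mem_range.2 w.isLt)
      rw [Bool.not_eq_true', ← Bool.not_eq_true] at h2
      exact h2 ((clB_pts G hlt u w).2 ⟨huw, hT⟩)
    · intro h u hu
      rw [List.all_eq_true]
      intro w hw
      rw [List.mem_range] at hu hw
      rw [Bool.not_eq_true', ← Bool.not_eq_true]
      intro h1
      have h2 := (clB_pts G hlt ⟨u, hu⟩ ⟨w, hw⟩).1 h1
      exact h _ (YG_iff.2 ⟨_, _, h2.1, rfl⟩) h2.2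
  · constructor
    · rintro ⟨h1, u, hu, h2⟩
      rw [List.any_eq_true] at h2
      obtain ⟨w, hw, h2⟩ := h2
      rw [List.mem_range] at hu hw
      rw [Bool.and_eq_true] at h2
      have h3 := (clB_pts G hlt ⟨u, hu⟩ ⟨w, hw⟩).1 h2.1
      have h4 := (clB_pts G hlt' ⟨u, hu⟩ ⟨w, hw⟩).1 h2.2
      rw [hpair] at h4
      exact ⟨_, YG_iff.2 ⟨_, _, h3.1, rfl⟩, h3.2, h4.2, fun h => h1 (hsub.1 h)⟩
    · rintro ⟨S, hS, hT, he, hn⟩
      obtain ⟨u, w, huw, rfl⟩ := YG_iff.1 hS
      refine ⟨fun h => hn (hsub.2 h), u, List.mem_range.2 u.isLt, ?_⟩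
      rw [List.any_eq_true]
      refine ⟨w, List.mem_range.2 w.isLt, ?_⟩
      rw [Bool.and_eq_true]
      refine ⟨(clB_pts G hlt u w).2 ⟨huw, hT⟩, (clB_pts G hlt' u w).2 ⟨huw, ?_⟩⟩
      rw [hpair]
      exact he

/-- The graph, on numbered vertices. -/
noncomputable def TX (n : ℕ) (G : SimpleGraph (Fin n)) : SimpleGraph (Fin (numX n)) :=
  (XG G).comap (trE (n + n))

/-- The numbering is an isomorphism. -/
noncomputable def TXiso (n : ℕ) (G : SimpleGraph (Fin n)) : TX n G ≃g XG G :=
  SimpleGraph.Iso.comap (trE (n + n)) _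

theorem adjX_iff {n : ℕ} (G : SimpleGraph (Fin n)) (s t : Fin (numX n)) :
    adjX (adjMatrix G) s t = true ↔ (TX n G).Adj s t := by
  have hs : (s : ℕ) < (trip (n + n)).length := s.isLt
  have ht : (t : ℕ) < (trip (n + n)).length := t.isLt
  have hst : ((s : ℕ) = t) ↔ s = t := Fin.ext_iff.symm
  show _ ↔ tr (n + n) s ≠ tr (n + n) t ∧
    ∃ e, inc (YG G (pr n)) e (tr (n + n) s) ∧ inc (YG G (pr n)) e (tr (n + n) t)
  unfold adjX
  rw [length_adjMatrix, Bool.and_eq_true, Bool.not_eq_true', decide_eq_false_iff_not, hst,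
    List.any_eq_true, List.getD_eq_getElem _ _ hs, List.getD_eq_getElem _ _ ht]
  refine and_congr (tr_bijective (n + n)).1.ne_iff.symm ?_
  constructor
  · rintro ⟨x, hx, h⟩
    rw [List.any_eq_true] at h
    obtain ⟨y, hy, h⟩ := h
    rw [List.mem_range] at hx hy
    rw [Bool.and_eq_true, Bool.and_eq_true, Bool.not_eq_true', decide_eq_false_iff_not] at h
    have hxy : (⟨x, hx⟩ : Fin (n + n)) ≠ ⟨y, hy⟩ := fun h' =>
      h.1 (congrArg (fun z : Fin (n + n) => (z : ℕ)) h')
    exact ⟨⟨{⟨x, hx⟩, ⟨y, hy⟩}, card_pair hxy⟩,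
      (incB_iff G (List.getElem_mem hs) hxy).1 h.2.1, (incB_iff G (List.getElem_mem ht) hxy).1 h.2.2⟩
  · rintro ⟨⟨e, he⟩, h1, h2⟩
    obtain ⟨x, y, hxy, rfl⟩ := card_eq_two.1 he
    refine ⟨x, List.mem_range.2 x.isLt, ?_⟩
    rw [List.any_eq_true]
    refine ⟨y, List.mem_range.2 y.isLt, ?_⟩
    rw [Bool.and_eq_true, Bool.and_eq_true, Bool.not_eq_true', decide_eq_false_iff_not]
    exact ⟨fun h => hxy (Fin.ext h), (incB_iff G (List.getElem_mem hs) hxy).2 h1,
      (incB_iff G (List.getElem_mem ht) hxy).2 h2⟩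

theorem redX_adjMatrix {n : ℕ} (G : SimpleGraph (Fin n)) :
    redX (adjMatrix G) = adjMatrix (TX n G) := by
  unfold redX
  rw [length_adjMatrix]
  exact adjMatrix_of_test (TX n G) (adjX (adjMatrix G)) fun s t => adjX_iff G s t

/-! ### The reduction -/

/-- The reduction on matrices. -/
def redJ (M : Mat) : Mat := redX (coneM (coneM (coneM (coneM (coneM M)))))

/-- The reduction on graphs. -/
noncomputable def TJ (n : ℕ) (G : SimpleGraph (Fin n)) :
    SimpleGraph (Fin (numX (n + 1 + 1 + 1 + 1 + 1))) := TX _ (cone5 G)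

theorem redJ_adjMatrix (n : ℕ) (G : SimpleGraph (Fin n)) :
    redJ (adjMatrix G) = adjMatrix (TJ n G) := by
  unfold redJ TJ cone5
  rw [coneM_adjMatrix, coneM_adjMatrix, coneM_adjMatrix, coneM_adjMatrix, coneM_adjMatrix,
    redX_adjMatrix]

theorem TJ_iff (n n' : ℕ) (G : SimpleGraph (Fin n)) (H : SimpleGraph (Fin n')) :
    Nonempty (TJ n G ≃g TJ n' H) ↔ Nonempty (G ≃g H) := by
  rw [← XG5_iff G H]
  constructor
  · rintro ⟨φ⟩
    exact ⟨((TXiso _ _).symm.trans φ).trans (TXiso _ _)⟩
  · rintro ⟨φ⟩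
    exact ⟨((TXiso _ _).trans φ).trans (TXiso _ _).symm⟩

/-! ### Polynomial time -/

theorem poly_coneM : Poly coneM := by
  unfold coneM
  have h1 : Poly (fun M : Mat => List.range (M.length + 1)) := (upoly_len.add (UPoly.const 1)).range
  refine Poly.map (F := fun (M : Mat) s => (List.range (M.length + 1)).map fun t =>
    (!decide (s = t)) && ((!(decide (s < M.length) && decide (t < M.length))) || ent M s t)) h1 ?_
  refine Poly.map (l := fun p : Mat × ℕ => List.range (p.1.length + 1))
    (F := fun (p : Mat × ℕ) t => (!decide (p.2 = t)) &&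
      ((!(decide (p.2 < p.1.length) && decide (t < p.1.length))) || ent p.1 p.2 t))
    (h1.comp (Poly.fst Poly.id)) ?_
  have h2 : Poly (fun p : (Mat × ℕ) × ℕ => ent p.1.1 p.1.2 p.2) :=
    poly_ent.comp (f := fun p : (Mat × ℕ) × ℕ => (p.1.1, p.1.2, p.2)) (by fun_prop)
  have h3 : Poly (fun p : (Mat × ℕ) × ℕ => decide (p.1.2 = p.2)) := by fun_prop
  have h4 : Poly (fun p : (Mat × ℕ) × ℕ => decide (p.1.2 < p.1.1.length)) := by fun_prop
  have h5 : Poly (fun p : (Mat × ℕ) × ℕ => decide (p.2 < p.1.1.length)) := by fun_prop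
  exact h3.not.and ((h4.and h5).not.or h2)

theorem upoly_2len : UPoly (fun M : Mat => M.length + M.length) := upoly_len.add upoly_len

theorem poly_trip {α : Type} [TEnc α] {m : α → ℕ} (hm : UPoly m) : Poly (fun a => trip (m a)) := by
  unfold trip
  refine Poly.flatMap (l := fun a => List.range (m a)) (F := fun a x =>
    (List.range (m a)).flatMap fun y => (List.range (m a)).flatMap fun z =>
      bif decide (x < y) && decide (y < z) then [[x, y, z]] else []) hm.range ?_
  refine Poly.flatMap (l := fun p : α × ℕ => List.range (m p.1)) (F := fun p y =>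
    (List.range (m p.1)).flatMap fun z =>
      bif decide (p.2 < y) && decide (y < z) then [[p.2, y, z]] else [])
    (hm.range.comp (Poly.fst Poly.id)) ?_
  refine Poly.flatMap (l := fun p : (α × ℕ) × ℕ => List.range (m p.1.1)) (F := fun p z =>
      bif decide (p.1.2 < p.2) && decide (p.2 < z) then [[p.1.2, p.2, z]] else [])
    (hm.range.comp (Poly.fst (Poly.fst Poly.id))) ?_
  fun_prop

theorem poly_clB : Poly (fun p : Mat × List ℕ × ℕ × ℕ => clB p.1 p.2.1 p.2.2.1 p.2.2.2) := by
  unfold clB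
  have h1 : Poly (fun p : Mat × List ℕ × ℕ × ℕ => ent p.1 p.2.2.1 p.2.2.2) :=
    poly_ent.comp (f := fun p : Mat × List ℕ × ℕ × ℕ => (p.1, p.2.2.1, p.2.2.2)) (by fun_prop)
  refine h1.and ?_
  refine Poly.all (l := fun p : Mat × List ℕ × ℕ × ℕ => p.2.1)
    (p := fun p q => decide (q % p.1.length = p.2.2.1) || decide (q % p.1.length = p.2.2.2))
    (by fun_prop) ?_
  fun_prop

theorem poly_incB : Poly (fun p : Mat × List ℕ × ℕ × ℕ => incB p.1 p.2.1 p.2.2.1 p.2.2.2) := by
  unfold incB
  have hm : Poly (fun p : Mat × List ℕ × ℕ × ℕ => decide (p.2.2.1 ∈ p.2.1) &&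
      decide (p.2.2.2 ∈ p.2.1)) := by
    refine Poly.and ?_ ?_
    · exact Poly.decide_mem (by fun_prop) (by fun_prop)
    · exact Poly.decide_mem (by fun_prop) (by fun_prop)
  have hr : Poly (fun p : Mat × List ℕ × ℕ × ℕ => List.range p.1.length) :=
    upoly_len.range.comp (Poly.fst Poly.id)
  refine Poly.or (hm.and ?_) (hm.not.and ?_)
  · refine Poly.all (l := fun p : Mat × List ℕ × ℕ × ℕ => List.range p.1.length)
      (p := fun p u => (List.range p.1.length).all fun w => !clB p.1 p.2.1 u w) hr ?_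
    refine Poly.all (l := fun q : (Mat × List ℕ × ℕ × ℕ) × ℕ => List.range q.1.1.length)
      (p := fun q w => !clB q.1.1 q.1.2.1 q.2 w) (hr.comp (Poly.fst Poly.id)) ?_
    exact (poly_clB.comp (f := fun q : ((Mat × List ℕ × ℕ × ℕ) × ℕ) × ℕ =>
      (q.1.1.1, q.1.1.2.1, q.1.2, q.2)) (by fun_prop)).not
  · refine Poly.any (l := fun p : Mat × List ℕ × ℕ × ℕ => List.range p.1.length)
      (p := fun p u => (List.range p.1.length).any fun w => clB p.1 p.2.1 u w &&
        clB p.1 [p.2.2.1, p.2.2.2] u w) hr ?_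
    refine Poly.any (l := fun q : (Mat × List ℕ × ℕ × ℕ) × ℕ => List.range q.1.1.length)
      (p := fun q w => clB q.1.1 q.1.2.1 q.2 w && clB q.1.1 [q.1.2.2.1, q.1.2.2.2] q.2 w)
      (hr.comp (Poly.fst Poly.id)) ?_
    exact (poly_clB.comp (f := fun q : ((Mat × List ℕ × ℕ × ℕ) × ℕ) × ℕ =>
      (q.1.1.1, q.1.1.2.1, q.1.2, q.2)) (by fun_prop)).and
      (poly_clB.comp (f := fun q : ((Mat × List ℕ × ℕ × ℕ) × ℕ) × ℕ =>
      (q.1.1.1, [q.1.1.2.2.1, q.1.1.2.2.2], q.1.2, q.2)) (by fun_prop))

theorem poly_adjX : Poly (fun p : Mat × ℕ × ℕ => adjX p.1 p.2.1 p.2.2) := by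
  unfold adjX
  have h1 : Poly (fun p : Mat × ℕ × ℕ => decide (p.2.1 = p.2.2)) := by fun_prop
  have hr : Poly (fun p : Mat × ℕ × ℕ => List.range (p.1.length + p.1.length)) :=
    upoly_2len.range.comp (Poly.fst Poly.id)
  have ht : Poly (fun p : Mat × ℕ × ℕ => trip (p.1.length + p.1.length)) :=
    poly_trip (m := fun p : Mat × ℕ × ℕ => p.1.length + p.1.length)
      (upoly_2len.comp (f := fun p : Mat × ℕ × ℕ => p.1) (Poly.fst Poly.id))
  refine h1.not.and ?_
  refine Poly.any (l := fun p : Mat × ℕ × ℕ => List.range (p.1.length + p.1.length))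
    (p := fun p x => (List.range (p.1.length + p.1.length)).any fun y => (!decide (x = y)) &&
      (incB p.1 ((trip (p.1.length + p.1.length)).getD p.2.1 []) x y &&
        incB p.1 ((trip (p.1.length + p.1.length)).getD p.2.2 []) x y)) hr ?_
  refine Poly.any (l := fun q : (Mat × ℕ × ℕ) × ℕ => List.range (q.1.1.length + q.1.1.length))
    (p := fun q y => (!decide (q.2 = y)) &&
      (incB q.1.1 ((trip (q.1.1.length + q.1.1.length)).getD q.1.2.1 []) q.2 y &&
        incB q.1.1 ((trip (q.1.1.length + q.1.1.length)).getD q.1.2.2 []) q.2 y))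
    (hr.comp (Poly.fst Poly.id)) ?_
  have p1 : Poly (fun r : ((Mat × ℕ × ℕ) × ℕ) × ℕ => r.1.1) := Poly.fst (Poly.fst Poly.id)
  have e1 : Poly (fun r : ((Mat × ℕ × ℕ) × ℕ) × ℕ =>
      (trip (r.1.1.1.length + r.1.1.1.length)).getD r.1.1.2.1 []) :=
    Poly.getD (d := fun _ => []) (ht.comp p1) (by fun_prop) (Poly.const _)
  have e2 : Poly (fun r : ((Mat × ℕ × ℕ) × ℕ) × ℕ =>
      (trip (r.1.1.1.length + r.1.1.1.length)).getD r.1.1.2.2 []) :=
    Poly.getD (d := fun _ => []) (ht.comp p1) (by fun_prop) (Poly.const _)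
  have p2 : Poly (fun r : ((Mat × ℕ × ℕ) × ℕ) × ℕ => (r.1.2, r.2)) := by fun_prop
  have p3 : Poly (fun r : ((Mat × ℕ × ℕ) × ℕ) × ℕ => r.1.1.1) := by fun_prop
  have h2 : Poly (fun r : ((Mat × ℕ × ℕ) × ℕ) × ℕ => decide (r.1.2 = r.2)) := by fun_prop
  refine h2.not.and (Poly.and ?_ ?_)
  · exact poly_incB.comp (f := fun r : ((Mat × ℕ × ℕ) × ℕ) × ℕ =>
      (r.1.1.1, (trip (r.1.1.1.length + r.1.1.1.length)).getD r.1.1.2.1 [], r.1.2, r.2))
      (Poly.pair p3 (Poly.pair e1 p2))
  · exact poly_incB.comp (f := fun r : ((Mat × ℕ × ℕ) × ℕ) × ℕ =>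
      (r.1.1.1, (trip (r.1.1.1.length + r.1.1.1.length)).getD r.1.1.2.2 [], r.1.2, r.2))
      (Poly.pair p3 (Poly.pair e2 p2))

theorem poly_redX : Poly redX := by
  unfold redX
  have h1 : Poly (fun M : Mat => List.range (numX M.length)) :=
    (UPoly.length (poly_trip upoly_2len)).range
  refine Poly.map (F := fun (M : Mat) s => (List.range (numX M.length)).map fun t => adjX M s t)
    h1 ?_
  refine Poly.map (l := fun p : Mat × ℕ => List.range (numX p.1.length))
    (F := fun (p : Mat × ℕ) t => adjX p.1 p.2 t) (h1.comp (Poly.fst Poly.id)) ?_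
  exact poly_adjX.comp (f := fun p : (Mat × ℕ) × ℕ => (p.1.1, p.1.2, p.2)) (by fun_prop)

theorem poly_redJ : Poly redJ := by
  unfold redJ
  exact poly_redX.comp (poly_coneM.comp (poly_coneM.comp (poly_coneM.comp
    (poly_coneM.comp poly_coneM))))

end Pool.Agent.NPC.JS677
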