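import Pool.Agent.H677.JS.Mats

/-!
# The eigenvalues and the connectedness
-/

set_option autoImplicit false
set_option linter.unusedSectionVars false

namespace Pool.Agent.H677.JS

open Finset Matrix

section abstract

variable {P Ω B : Type} [Fintype P] [Fintype Ω] [Fintype B] [DecidableEq P] [DecidableEq Ω]
  [DecidableEq B] {A : Matrix B B ℝ} {N : Matrix Ω B ℝ} {M : Matrix P Ω ℝ}

theorem eig_mem {m : ℝ} (hm : (Fintype.card P : ℝ) = m)
    (h1 : Nᵀ * N = A + (3 : ℝ) • (1 : Matrix B B ℝ))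
    (h2 : N * Nᵀ = (m - 4) • (1 : Matrix Ω Ω ℝ) + Mᵀ * M)
    (h3 : M * Mᵀ = (m - 2) • (1 : Matrix P P ℝ) + Matrix.of fun _ _ => 1)
    {θ : ℝ} {x : B → ℝ} (hx : x ≠ 0) (hA : A *ᵥ x = θ • x) :
    θ = 3 * m - 9 ∨ θ = 2 * m - 9 ∨ θ = m - 7 ∨ θ = -3 := by
  have e1 : Nᵀ *ᵥ (N *ᵥ x) = (θ + 3) • x := by
    rw [Matrix.mulVec_mulVec, h1, Matrix.add_mulVec, hA, Matrix.smul_mulVec, Matrix.one_mulVec,
      add_smul]
  obtain ⟨y, hy⟩ : ∃ y, y = N *ᵥ x := ⟨_, rfl⟩
  rw [← hy] at e1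
  have smul_cancel : ∀ {ι : Type} {c : ℝ} {v : ι → ℝ}, v ≠ 0 → c • v = 0 → c = 0 := by
    intro ι c v hv h
    exact (smul_eq_zero.1 h).resolve_right hv
  by_cases hy0 : y = 0
  · right; right; right
    rw [hy0, Matrix.mulVec_zero] at e1
    have := smul_cancel hx e1.symm
    linarith
  have e2 : Mᵀ *ᵥ (M *ᵥ y) = (θ - m + 7) • y := by
    have e3 : N *ᵥ (Nᵀ *ᵥ y) = (θ + 3) • y := by
      rw [e1, Matrix.mulVec_smul, hy]
    rw [Matrix.mulVec_mulVec, h2, Matrix.add_mulVec, Matrix.smul_mulVec, Matrix.one_mulVec,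
      ← Matrix.mulVec_mulVec] at e3
    have e4 : Mᵀ *ᵥ (M *ᵥ y) = (θ + 3) • y - (m - 4) • y := by
      rw [← e3, add_sub_cancel_left]
    rw [e4, ← sub_smul]
    congr 1
    ring
  obtain ⟨z, hz⟩ : ∃ z, z = M *ᵥ y := ⟨_, rfl⟩
  rw [← hz] at e2
  by_cases hz0 : z = 0
  · right; right; left
    rw [hz0, Matrix.mulVec_zero] at e2
    have := smul_cancel hy0 e2.symm
    linarith
  have e5 : ∀ p, (m - 2) * z p + ∑ q, z q = (θ - m + 7) * z p := by
    intro p
    have e6 : M *ᵥ (Mᵀ *ᵥ z) = (θ - m + 7) • z := by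
      rw [e2, Matrix.mulVec_smul, hz]
    rw [Matrix.mulVec_mulVec, h3, Matrix.add_mulVec, Matrix.smul_mulVec, Matrix.one_mulVec] at e6
    have e7 := congrFun e6 p
    rw [Pi.add_apply, Pi.smul_apply, Pi.smul_apply, smul_eq_mul, smul_eq_mul, Matrix.mulVec,
      dotProduct] at e7
    simpa using e7
  by_cases hκ : θ - m + 7 = m - 2
  · right; left
    linarith
  left
  obtain ⟨s, hs⟩ : ∃ s, s = ∑ q, z q := ⟨_, rfl⟩
  have e8 : ∀ p, s = (θ - 2 * m + 9) * z p := by
    intro p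
    have := e5 p
    rw [hs]
    linarith
  have hs0 : s ≠ 0 := by
    intro h
    apply hz0
    funext p
    have := e8 p
    rw [h] at this
    rcases mul_eq_zero.1 this.symm with h' | h'
    · exact absurd (by linarith) hκ
    · exact h'
  have e9 : m * s = (θ - 2 * m + 9) * s := by
    have h : ∑ _p : P, s = ∑ p : P, (θ - 2 * m + 9) * z p := Finset.sum_congr rfl fun p _ => e8 p
    rw [Finset.sum_const, Finset.card_univ, nsmul_eq_mul, ← Finset.mul_sum, ← hs, hm] at h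
    exact h
  have := mul_right_cancel₀ hs0 e9
  linarith

/-- Eigenvectors from eigenvectors of `Mᵀ M`. -/
theorem eig_of {m : ℝ} (h1 : Nᵀ * N = A + (3 : ℝ) • (1 : Matrix B B ℝ))
    (h2 : N * Nᵀ = (m - 4) • (1 : Matrix Ω Ω ℝ) + Mᵀ * M) {κ : ℝ} {g : Ω → ℝ} (hg : g ≠ 0)
    (hM : Mᵀ *ᵥ (M *ᵥ g) = κ • g) (hκ : κ + (m - 4) ≠ 0) :
    ∃ x : B → ℝ, x ≠ 0 ∧ A *ᵥ x = (κ + m - 7) • x := by
  have e1 : N *ᵥ (Nᵀ *ᵥ g) = (κ + (m - 4)) • g := by
    rw [Matrix.mulVec_mulVec, h2, Matrix.add_mulVec, Matrix.smul_mulVec, Matrix.one_mulVec,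
      ← Matrix.mulVec_mulVec, hM, ← add_smul, add_comm]
  refine ⟨Nᵀ *ᵥ g, ?_, ?_⟩
  · intro h
    rw [h, Matrix.mulVec_zero] at e1
    rcases smul_eq_zero.1 e1.symm with h' | h'
    · exact hκ h'
    · exact hg h'
  · have e2 : A = Nᵀ * N - (3 : ℝ) • (1 : Matrix B B ℝ) := by
      rw [h1, add_sub_cancel_right]
    rw [e2, Matrix.sub_mulVec, ← Matrix.mulVec_mulVec, e1, Matrix.mulVec_smul, Matrix.smul_mulVec,
      Matrix.one_mulVec, ← sub_smul]
    congr 1
    ring

theorem exists_ker {α β : Type} [Fintype α] [Fintype β] (K : Matrix α β ℝ)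
    (h : Fintype.card α < Fintype.card β) : ∃ y : β → ℝ, y ≠ 0 ∧ K *ᵥ y = 0 := by
  have h3 : LinearMap.ker K.mulVecLin ≠ ⊥ := by
    apply LinearMap.ker_ne_bot_of_finrank_lt
    rw [Module.finrank_pi, Module.finrank_pi]
    exact h
  obtain ⟨y, hy, hy0⟩ := Submodule.exists_mem_ne_zero_of_ne_bot h3
  rw [LinearMap.mem_ker] at hy
  exact ⟨y, hy0, hy⟩

theorem eig_iff {m : ℝ} (hm : (Fintype.card P : ℝ) = m) (h6 : 6 ≤ Fintype.card P)
    (hΩ : Fintype.card P < Fintype.card Ω) (hB : Fintype.card Ω < Fintype.card B)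
    (h1 : Nᵀ * N = A + (3 : ℝ) • (1 : Matrix B B ℝ))
    (h2 : N * Nᵀ = (m - 4) • (1 : Matrix Ω Ω ℝ) + Mᵀ * M)
    (h3 : M * Mᵀ = (m - 2) • (1 : Matrix P P ℝ) + Matrix.of fun _ _ => 1) (θ : ℝ) :
    (∃ x : B → ℝ, x ≠ 0 ∧ A *ᵥ x = θ • x) ↔
      (θ = 3 * m - 9 ∨ θ = 2 * m - 9 ∨ θ = m - 7 ∨ θ = -3) := by
  have hm6 : (6 : ℝ) ≤ m := by
    rw [← hm]
    exact_mod_cast h6
  constructor
  · rintro ⟨x, hx, hA⟩
    exact eig_mem hm h1 h2 h3 hx hA
  · -- eigenvectors of `M Mᵀ`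
    have key : ∀ (κ : ℝ) (h : P → ℝ), h ≠ 0 → 0 < κ → M *ᵥ (Mᵀ *ᵥ h) = κ • h →
        ∃ x : B → ℝ, x ≠ 0 ∧ A *ᵥ x = (κ + m - 7) • x := by
      intro κ h hh hκ hM
      refine eig_of h1 h2 (g := Mᵀ *ᵥ h) ?_ ?_ (by linarith)
      · intro h0
        rw [h0, Matrix.mulVec_zero] at hM
        rcases smul_eq_zero.1 hM.symm with h' | h'
        · exact hκ.ne' h'
        · exact hh h'
      · rw [hM, Matrix.mulVec_smul]
    have hMM : ∀ h : P → ℝ, M *ᵥ (Mᵀ *ᵥ h) = (m - 2) • h + fun _ => ∑ q, h q := by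
      intro h
      rw [Matrix.mulVec_mulVec, h3, Matrix.add_mulVec, Matrix.smul_mulVec, Matrix.one_mulVec]
      congr 1
      funext p
      rw [Matrix.mulVec, dotProduct]
      simp
    rintro (rfl | rfl | rfl | rfl)
    · obtain ⟨p⟩ : Nonempty P := Fintype.card_pos_iff.1 (by omega)
      have := key (2 * m - 2) (fun _ => 1) (fun h => one_ne_zero (congrFun h p)) (by linarith) (by
        rw [hMM]
        funext q
        rw [Pi.add_apply, Pi.smul_apply, Pi.smul_apply, Finset.sum_const, Finset.card_univ,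
          nsmul_eq_mul, hm, smul_eq_mul, smul_eq_mul]
        ring)
      obtain ⟨x, hx, hA⟩ := this
      refine ⟨x, hx, ?_⟩
      rw [hA]
      congr 1
      ring
    · obtain ⟨p, q, hpq⟩ : ∃ p q : P, p ≠ q := Fintype.exists_pair_of_one_lt_card (by omega)
      let y : P → ℝ := fun r => (if r = p then 1 else 0) - if r = q then 1 else 0
      have hy : ∑ r, y r = 0 := by
        show ∑ r, ((if r = p then (1 : ℝ) else 0) - if r = q then 1 else 0) = 0
        rw [Finset.sum_sub_distrib, Finset.sum_ite_eq', Finset.sum_ite_eq',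
          if_pos (Finset.mem_univ _), if_pos (Finset.mem_univ _), sub_self]
      have hyp : y p = 1 := by
        show (if p = p then (1 : ℝ) else 0) - (if p = q then 1 else 0) = 1
        rw [if_pos rfl, if_neg hpq, sub_zero]
      have := key (m - 2) y (fun h => by
        have := congrFun h p
        rw [hyp] at this
        exact one_ne_zero this) (by linarith) (by
        rw [hMM, hy]
        funext r
        simp)
      obtain ⟨x, hx, hA⟩ := this
      refine ⟨x, hx, ?_⟩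
      rw [hA]
      congr 1
      ring
    · obtain ⟨g, hg, hMg⟩ := exists_ker M hΩ
      obtain ⟨x, hx, hA⟩ := eig_of h1 h2 (κ := 0) hg (by
        rw [hMg, Matrix.mulVec_zero, zero_smul]) (by linarith)
      refine ⟨x, hx, ?_⟩
      rw [hA]
      congr 1
      ring
    · obtain ⟨x, hx, hN⟩ := exists_ker N hB
      refine ⟨x, hx, ?_⟩
      have e2 : A = Nᵀ * N - (3 : ℝ) • (1 : Matrix B B ℝ) := by
        rw [h1, add_sub_cancel_right]
      rw [e2, Matrix.sub_mulVec, ← Matrix.mulVec_mulVec, hN, Matrix.mulVec_zero,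
        Matrix.smul_mulVec, Matrix.one_mulVec, zero_sub, neg_smul]

end abstract

variable {P : Type} [Fintype P] [DecidableEq P] {Y : Finset P → Prop}

theorem choose_two_lt {m : ℕ} (h : 6 ≤ m) : m < m.choose 2 := by
  obtain ⟨k, rfl⟩ := Nat.exists_eq_add_of_le h
  induction k with
  | zero => decide
  | succ k ih =>
    have h1 := ih (by omega)
    have h2 : (6 + (k + 1)).choose 2 = (6 + k).choose 1 + (6 + k).choose 2 := Nat.choose_succ_succ _ _
    rw [Nat.choose_one_right] at h2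
    omega

theorem choose_three_lt {m : ℕ} (h : 6 ≤ m) : m.choose 2 < m.choose 3 := by
  obtain ⟨k, rfl⟩ := Nat.exists_eq_add_of_le h
  induction k with
  | zero => decide
  | succ k ih =>
    have h1 := ih (by omega)
    have h2 : (6 + (k + 1)).choose 2 = (6 + k).choose 1 + (6 + k).choose 2 := Nat.choose_succ_succ _ _
    have h3 : (6 + (k + 1)).choose 3 = (6 + k).choose 2 + (6 + k).choose 3 := Nat.choose_succ_succ _ _
    rw [Nat.choose_one_right] at h2
    have h4 := choose_two_lt (m := 6 + k) (by omega)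
    omega

/-- **The eigenvalues.** -/
theorem isEigenvalue_iff (hY : Sys Y) (h6 : 6 ≤ Fintype.card P) (θ : ℝ) :
    FE.IsEigenvalue (col (inc Y)) θ ↔
      (θ = 3 * (Fintype.card P : ℝ) - 9 ∨ θ = 2 * (Fintype.card P : ℝ) - 9 ∨
        θ = (Fintype.card P : ℝ) - 7 ∨ θ = -3) := by
  classical
  refine Iff.trans ?_ (eig_iff (P := P) (Ω := Pr P) (B := Tr P) (m := (Fintype.card P : ℝ)) rfl h6
    ?_ ?_ (NtN hY) (NNt hY) MMt θ)
  · exact Iff.rfl
  · rw [Fintype.card_finset_len]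
    exact choose_two_lt h6
  · rw [Fintype.card_finset_len, Fintype.card_finset_len]
    exact choose_three_lt h6

/-- The graph is connected. -/
theorem connected (hY : Sys Y) (h3 : 3 ≤ Fintype.card P) : (col (inc Y)).Connected := by
  classical
  have line : ∀ (e : Pr P) (T T' : Tr P), inc Y e T → inc Y e T' →
      (col (inc Y)).Reachable T T' := by
    intro e T T' h h'
    by_cases hne : T = T'
    · rw [hne]
    · exact SimpleGraph.Adj.reachable (G := col (inc Y)) ⟨hne, e, h, h'⟩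
  have meet : ∀ (e f : Pr P) (T T' : Tr P), (e.1 ∩ f.1).Nonempty → inc Y e T → inc Y f T' →
      (col (inc Y)).Reachable T T' := by
    intro e f T T' hef h h'
    by_cases hne : e = f
    · subst hne
      exact line e T T' h h'
    · obtain ⟨T'', h1, h2⟩ := inc_exists hY hne hef
      exact (line e T T'' h h1).trans (line f T'' T' h2 h')
  have some_pt : ∀ e : Pr P, ∃ a, a ∈ e.1 := by
    intro e
    apply Finset.card_pos.1
    rw [e.2]
    norm_num
  have some_line : ∀ T : Tr P, ∃ e, inc Y e T := by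
    intro T
    obtain ⟨e, he⟩ : (els (inc Y) T).Nonempty := by
      rw [← Finset.card_pos, card_els hY]
      norm_num
    exact ⟨e, mem_els.1 he⟩
  obtain ⟨T₀, _, hT₀⟩ := Finset.exists_subset_card_eq (s := (univ : Finset P)) (n := 3)
    (by rw [Finset.card_univ]; exact h3)
  have : Nonempty (Tr P) := ⟨⟨T₀, hT₀⟩⟩
  refine SimpleGraph.Connected.mk fun T T' => ?_
  obtain ⟨e, he⟩ := some_line T
  obtain ⟨f, hf⟩ := some_line T'
  obtain ⟨a, ha⟩ := some_pt e
  obtain ⟨c, hc⟩ := some_pt f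
  by_cases hac : a = c
  · subst hac
    exact meet e f T T' ⟨a, mem_inter.2 ⟨ha, hc⟩⟩ he hf
  · have h1 : (e.1 ∩ ({a, c} : Finset P)).Nonempty := ⟨a, mem_inter.2 ⟨ha, mem_insert_self _ _⟩⟩
    have h2 : (({a, c} : Finset P) ∩ f.1).Nonempty :=
      ⟨c, mem_inter.2 ⟨mem_insert_of_mem (mem_singleton_self _), hc⟩⟩
    let g : Pr P := ⟨{a, c}, card_pair hac⟩
    obtain ⟨T'', hg⟩ : ∃ T'', inc Y g T'' := by
      have h4 : 0 < (bls (inc Y) g).card := by
        rw [card_bls hY]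
        omega
      obtain ⟨T'', h5⟩ := Finset.card_pos.1 h4
      exact ⟨T'', mem_bls.1 h5⟩
    exact (meet e g T T'' h1 he hg).trans (meet g f T'' T' h2 hg hf)

end Pool.Agent.H677.JS
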