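import Pool.Agent.H677.JS.Recover

/-!
# The family of 4-subsets of a graph
-/

set_option autoImplicit false
set_option linter.unusedSectionVars false

namespace Pool.Agent.H677.JS

open Finset

section

variable {V P : Type} [Fintype V] [DecidableEq V] [Fintype P] [DecidableEq P]

/-- Every vertex has exactly two points. -/
def Two (pr : P → V) : Prop := ∀ v, (univ.filter fun p => pr p = v).card = 2

/-- The sets of the four points of two adjacent vertices. -/
def YG (G : SimpleGraph V) (pr : P → V) (S : Finset P) : Prop :=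
  ∃ u w, G.Adj u w ∧ ∀ p, p ∈ S ↔ pr p = u ∨ pr p = w

variable {G : SimpleGraph V} {pr : P → V}

/-- The points of a vertex. -/
def fib (pr : P → V) (v : V) : Finset P := univ.filter fun p => pr p = v

theorem mem_fib {p : P} {v : V} : p ∈ fib pr v ↔ pr p = v := by
  unfold fib
  rw [mem_filter]
  exact ⟨fun h => h.2, fun h => ⟨mem_univ _, h⟩⟩

theorem YG_iff {S : Finset P} : YG G pr S ↔ ∃ u w, G.Adj u w ∧ S = fib pr u ∪ fib pr w := by
  refine exists_congr fun u => exists_congr fun w => and_congr Iff.rfl ?_
  constructor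
  · intro h
    ext p
    rw [h, mem_union, mem_fib, mem_fib]
  · rintro rfl p
    rw [mem_union, mem_fib, mem_fib]

theorem sys_YG (h2 : Two pr) : Sys (YG G pr) where
  four := by
    intro S hS
    obtain ⟨u, w, h, rfl⟩ := YG_iff.1 hS
    rw [card_union_of_disjoint]
    · have h1 := h2 u
      have h3 := h2 w
      unfold fib
      rw [h1, h3]
    · rw [Finset.disjoint_left]
      intro p h1 h3
      rw [mem_fib] at h1 h3
      exact h.ne (h1.symm.trans h3)
  two := by
    rintro S S' ⟨u, w, h, hS⟩ ⟨u', w', h', hS'⟩ h3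
    -- if one of the vertices is not common then the intersection is small
    have key : ∀ (S S' : Finset P) (u w u' w' : V), (∀ p, p ∈ S ↔ pr p = u ∨ pr p = w) →
        (∀ p, p ∈ S' ↔ pr p = u' ∨ pr p = w') → 3 ≤ (S ∩ S').card → u = u' ∨ u = w' := by
      intro S S' u w u' w' hS hS' h3
      by_contra hcon
      rw [not_or] at hcon
      have h4 : S ∩ S' ⊆ fib pr w := by
        intro p hp
        rw [mem_inter, hS, hS'] at hp
        rw [mem_fib]
        rcases hp.1 with h | h
        · rcases hp.2 with h' | h'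
          · exact absurd (h.symm.trans h') hcon.1
          · exact absurd (h.symm.trans h') hcon.2
        · exact h
      have h5 := card_le_card h4
      have h6 := h2 w
      unfold fib at h5
      omega
    have k1 := key S S' u w u' w' hS hS' h3
    have k2 := key S S' w u u' w' (fun p => (hS p).trans or_comm) hS' h3
    have k3 := h.ne
    ext p
    rw [hS, hS']
    rcases k1 with rfl | rfl
    · rcases k2 with rfl | rfl
      · exact absurd rfl k3
      · exact Iff.rfl
    · rcases k2 with rfl | rfl
      · exact or_comm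
      · exact absurd rfl k3

end

section

variable {V V' P P' : Type} [Fintype V] [DecidableEq V] [Fintype P] [DecidableEq P]
  [Fintype V'] [DecidableEq V'] [Fintype P'] [DecidableEq P']
  {G : SimpleGraph V} {pr : P → V} {G' : SimpleGraph V'} {pr' : P' → V'}

theorem exists_two (h2 : Two pr) (v : V) : ∃ p q, p ≠ q ∧ pr p = v ∧ pr q = v ∧
    ∀ r, pr r = v → r = p ∨ r = q := by
  obtain ⟨p, q, hpq, h⟩ := Finset.card_eq_two.1 (h2 v)
  have hm : ∀ r, pr r = v ↔ r = p ∨ r = q := by
    intro r
    have : r ∈ univ.filter (fun p => pr p = v) ↔ r ∈ ({p, q} : Finset P) := by rw [h]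
    rw [mem_filter, mem_insert, mem_singleton] at this
    exact ⟨fun h => this.1 ⟨mem_univ _, h⟩, fun h => (this.2 h).2⟩
  exact ⟨p, q, hpq, (hm p).2 (Or.inl rfl), (hm q).2 (Or.inr rfl), fun r => (hm r).1⟩

/-- The two points of a vertex with at least two neighbours are mapped to points of the same
vertex. -/
theorem same_vertex (h2 : Two pr) (π : P ≃ P')
    (hπ : ∀ S : Finset P, YG G' pr' (S.map π.toEmbedding) ↔ YG G pr S)
    (hdeg : ∀ v, ∃ w₁ w₂, w₁ ≠ w₂ ∧ G.Adj v w₁ ∧ G.Adj v w₂) {p q : P} (hpq : pr p = pr q) :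
    pr' (π p) = pr' (π q) := by
  by_contra hne
  obtain ⟨w₁, w₂, hw, h1, h1'⟩ := hdeg (pr p)
  have key : ∀ w, G.Adj (pr p) w → ∀ y, y ∈ (fib pr (pr p) ∪ fib pr w).map π.toEmbedding ↔
      pr' y = pr' (π p) ∨ pr' y = pr' (π q) := by
    intro w hw
    obtain ⟨a, b, _, hab⟩ := (hπ _).2 (YG_iff.2 ⟨pr p, w, hw, rfl⟩)
    have e1 : pr' (π p) = a ∨ pr' (π p) = b := by
      rw [← hab, mem_map_equiv, Equiv.symm_apply_apply, mem_union, mem_fib]
      exact Or.inl rfl
    have e2 : pr' (π q) = a ∨ pr' (π q) = b := by
      rw [← hab, mem_map_equiv, Equiv.symm_apply_apply, mem_union, mem_fib]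
      exact Or.inl hpq.symm
    intro y
    rw [hab]
    rcases e1 with rfl | rfl
    · rcases e2 with h | rfl
      · exact absurd h.symm hne
      · exact Iff.rfl
    · rcases e2 with rfl | h
      · exact or_comm
      · exact absurd h.symm hne
  obtain ⟨r, _, _, hr, _, _⟩ := exists_two h2 w₁
  have h3 : π r ∈ (fib pr (pr p) ∪ fib pr w₁).map π.toEmbedding := by
    rw [mem_map_equiv, Equiv.symm_apply_apply, mem_union, mem_fib, mem_fib]
    exact Or.inr hr
  rw [key w₁ h1, ← key w₂ h1', mem_map_equiv, Equiv.symm_apply_apply, mem_union, mem_fib,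
    mem_fib, hr] at h3
  rcases h3 with h3 | h3
  · exact h1.ne h3.symm
  · exact hw h3

/-- **Recovering the graph.** -/
theorem recover_graph (h2 : Two pr) (h2' : Two pr') (π : P ≃ P')
    (hπ : ∀ S : Finset P, YG G' pr' (S.map π.toEmbedding) ↔ YG G pr S)
    (hdeg : ∀ v, ∃ w₁ w₂, w₁ ≠ w₂ ∧ G.Adj v w₁ ∧ G.Adj v w₂)
    (hdeg' : ∀ v, ∃ w₁ w₂, w₁ ≠ w₂ ∧ G'.Adj v w₁ ∧ G'.Adj v w₂) : Nonempty (G ≃g G') := by
  have hπ' : ∀ S : Finset P', YG G pr (S.map π.symm.toEmbedding) ↔ YG G' pr' S := by
    intro S
    rw [← hπ, Finset.map_map]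
    have h4 : π.symm.toEmbedding.trans π.toEmbedding = Function.Embedding.refl P' := by
      ext x
      exact π.apply_symm_apply x
    rw [h4, Finset.map_refl]
  choose s hs using fun v => exists_two h2 v
  choose s' hs' using fun v => exists_two h2' v
  have hs0 : ∀ v, pr (s v) = v := fun v => (hs v).choose_spec.2.1
  have hs0' : ∀ v, pr' (s' v) = v := fun v => (hs' v).choose_spec.2.1
  have sv := fun {p q : P} (h : pr p = pr q) => same_vertex h2 π hπ hdeg h
  have sv' := fun {p q : P'} (h : pr' p = pr' q) => same_vertex h2' π.symm hπ' hdeg' h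
  let σ : V ≃ V' :=
    { toFun := fun v => pr' (π (s v))
      invFun := fun v => pr (π.symm (s' v))
      left_inv := fun v => by
        have h1 : pr (π.symm (s' (pr' (π (s v))))) = pr (π.symm (π (s v))) := sv' (hs0' _)
        show pr (π.symm (s' (pr' (π (s v))))) = v
        rw [h1, Equiv.symm_apply_apply, hs0]
      right_inv := fun v => by
        have h1 : pr' (π (s (pr (π.symm (s' v))))) = pr' (π (π.symm (s' v))) := sv (hs0 _)
        show pr' (π (s (pr (π.symm (s' v))))) = v
        rw [h1, Equiv.apply_symm_apply, hs0'] }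
  have hσ : ∀ p, pr' (π p) = σ (pr p) := fun p => sv (hs0 (pr p)).symm
  refine ⟨⟨σ, ?_⟩⟩
  intro u w
  have h3 : (fib pr u ∪ fib pr w).map π.toEmbedding = fib pr' (σ u) ∪ fib pr' (σ w) := by
    ext y
    rw [mem_map_equiv, mem_union, mem_union, mem_fib, mem_fib, mem_fib, mem_fib]
    have := hσ (π.symm y)
    rw [Equiv.apply_symm_apply] at this
    rw [this, σ.injective.eq_iff, σ.injective.eq_iff]
  have key : ∀ {V P : Type} [Fintype V] [DecidableEq V] [Fintype P] [DecidableEq P]
      {G : SimpleGraph V} {pr : P → V} (_ : ∀ v, ∃ p, pr p = v) (u w : V), u ≠ w →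
      (YG G pr (fib pr u ∪ fib pr w) ↔ G.Adj u w) := by
    intro V P _ _ _ _ G pr hs u w huw
    constructor
    · rintro ⟨a, b, hab, h⟩
      obtain ⟨p, hp⟩ := hs u
      obtain ⟨q, hq⟩ := hs w
      have h4 := (h p).1 (mem_union_left _ (mem_fib.2 hp))
      have h5 := (h q).1 (mem_union_right _ (mem_fib.2 hq))
      rw [hp] at h4
      rw [hq] at h5
      rcases h4 with rfl | rfl
      · rcases h5 with rfl | rfl
        · exact absurd rfl huw
        · exact hab
      · rcases h5 with rfl | rfl
        · exact hab.symm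
        · exact absurd rfl huw
    · exact fun h => YG_iff.2 ⟨u, w, h, rfl⟩
  by_cases huw : u = w
  · subst huw
    exact iff_of_false G'.irrefl G.irrefl
  · show G'.Adj (σ u) (σ w) ↔ G.Adj u w
    rw [← key (G := G) (pr := pr) (fun v => ⟨s v, hs0 v⟩) u w huw,
      ← key (G := G') (pr := pr') (fun v => ⟨s' v, hs0' v⟩) (σ u) (σ w) (σ.injective.ne huw),
      ← hπ, h3]

/-- Isomorphic graphs have isomorphic families. -/
theorem map_YG (π : P ≃ P') (φ : G ≃g G') (h : ∀ p, pr' (π p) = φ (pr p)) (S : Finset P) :
    YG G' pr' (S.map π.toEmbedding) ↔ YG G pr S := by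
  constructor
  · rintro ⟨a, b, hab, hS⟩
    refine ⟨φ.symm a, φ.symm b, φ.symm.map_adj_iff.2 hab, fun p => ?_⟩
    have h1 := hS (π p)
    rw [mem_map_equiv, Equiv.symm_apply_apply, h] at h1
    rw [h1]
    refine or_congr ?_ ?_
    · exact ⟨fun h2 => by rw [← h2, RelIso.symm_apply_apply],
        fun h2 => by rw [h2, RelIso.apply_symm_apply]⟩
    · exact ⟨fun h2 => by rw [← h2, RelIso.symm_apply_apply],
        fun h2 => by rw [h2, RelIso.apply_symm_apply]⟩
  · rintro ⟨a, b, hab, hS⟩
    refine ⟨φ a, φ b, φ.map_adj_iff.2 hab, fun y => ?_⟩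
    rw [mem_map_equiv, hS]
    have h1 := h (π.symm y)
    rw [Equiv.apply_symm_apply] at h1
    rw [h1, φ.injective.eq_iff, φ.injective.eq_iff]

end

/-! ### Cones -/

/-- A graph with an additional vertex that is adjacent to all others. -/
def cone {n : ℕ} (G : SimpleGraph (Fin n)) : SimpleGraph (Fin (n + 1)) where
  Adj u w := u ≠ w ∧ ∀ (h : (u : ℕ) < n) (h' : (w : ℕ) < n), G.Adj ⟨u, h⟩ ⟨w, h'⟩
  symm := ⟨fun _ _ h => ⟨h.1.symm, fun h1 h2 => (h.2 h2 h1).symm⟩⟩
  loopless := ⟨fun _ h => h.1 rfl⟩

theorem cone_last {n : ℕ} (G : SimpleGraph (Fin n)) {u : Fin (n + 1)} (h : u ≠ Fin.last n) :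
    (cone G).Adj (Fin.last n) u :=
  ⟨h.symm, fun h1 _ => absurd h1 (lt_irrefl n)⟩

theorem cone_castSucc {n : ℕ} (G : SimpleGraph (Fin n)) (u w : Fin n) :
    (cone G).Adj u.castSucc w.castSucc ↔ G.Adj u w := by
  constructor
  · exact fun h => h.2 u.isLt w.isLt
  · exact fun h => ⟨fun h' => h.ne (Fin.castSucc_injective n h'), fun _ _ => h⟩

/-- The vertex of the cone can be cancelled. -/
theorem cone_cancel {n n' : ℕ} {G : SimpleGraph (Fin n)} {H : SimpleGraph (Fin n')}
    (φ : cone G ≃g cone H) : Nonempty (G ≃g H) := by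
  have hnn : n = n' := by
    have := Fintype.card_congr φ.toEquiv
    simpa using this
  subst hnn
  -- exchange two dominating vertices
  obtain ⟨φ, hφ⟩ : ∃ φ : cone G ≃g cone H, φ (Fin.last n) = Fin.last n := by
    by_cases h : φ (Fin.last n) = Fin.last n
    · exact ⟨φ, h⟩
    · have hdom : ∀ x, x ≠ φ (Fin.last n) → (cone H).Adj (φ (Fin.last n)) x := by
        intro x hx
        obtain ⟨y, rfl⟩ := φ.surjective x
        exact φ.map_adj_iff.2 (cone_last G fun h' => hx (by rw [h']))
      let τ : cone H ≃g cone H := ⟨Equiv.swap (φ (Fin.last n)) (Fin.last n), by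
        intro a b
        have key : ∀ a b : Fin (n + 1), (cone H).Adj a b →
            (cone H).Adj (Equiv.swap (φ (Fin.last n)) (Fin.last n) a)
              (Equiv.swap (φ (Fin.last n)) (Fin.last n) b) := by
          intro a b hab
          have hne : Equiv.swap (φ (Fin.last n)) (Fin.last n) a ≠
              Equiv.swap (φ (Fin.last n)) (Fin.last n) b :=
            (Equiv.swap (φ (Fin.last n)) (Fin.last n)).injective.ne hab.ne
          by_cases ha : a = φ (Fin.last n)
          · subst ha
            rw [Equiv.swap_apply_left] at hne ⊢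
            exact cone_last H hne.symm
          · by_cases ha' : a = Fin.last n
            · subst ha'
              rw [Equiv.swap_apply_right] at hne ⊢
              exact hdom _ hne.symm
            · by_cases hb : b = φ (Fin.last n)
              · subst hb
                rw [Equiv.swap_apply_left] at hne ⊢
                exact (cone_last H hne).symm
              · by_cases hb' : b = Fin.last n
                · subst hb'
                  rw [Equiv.swap_apply_right] at hne ⊢
                  exact (hdom _ hne).symm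
                · rw [Equiv.swap_apply_of_ne_of_ne ha ha', Equiv.swap_apply_of_ne_of_ne hb hb']
                  exact hab
        constructor
        · intro hab
          have := key _ _ hab
          rwa [Equiv.swap_apply_self, Equiv.swap_apply_self] at this
        · exact key a b⟩
      refine ⟨φ.trans τ, ?_⟩
      show Equiv.swap (φ (Fin.last n)) (Fin.last n) (φ (Fin.last n)) = Fin.last n
      exact Equiv.swap_apply_left _ _
  have hφ' : φ.symm (Fin.last n) = Fin.last n := by
    rw [← hφ, RelIso.symm_apply_apply, hφ]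
  have h1 : ∀ u : Fin n, φ u.castSucc ≠ Fin.last n := by
    intro u h
    have h2 := φ.injective (h.trans hφ.symm)
    exact (Fin.castSucc_lt_last u).ne h2
  have h1' : ∀ u : Fin n, φ.symm u.castSucc ≠ Fin.last n := by
    intro u h
    have h2 := φ.symm.injective (h.trans hφ'.symm)
    exact (Fin.castSucc_lt_last u).ne h2
  refine ⟨⟨⟨fun u => (φ u.castSucc).castPred (h1 u), fun u => (φ.symm u.castSucc).castPred (h1' u),
    fun u => ?_, fun u => ?_⟩, ?_⟩⟩
  · apply Fin.castSucc_injective n
    simp
  · apply Fin.castSucc_injective n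
    simp
  · intro u w
    show H.Adj ((φ u.castSucc).castPred (h1 u)) ((φ w.castSucc).castPred (h1 w)) ↔ _
    rw [← cone_castSucc H, Fin.castSucc_castPred, Fin.castSucc_castPred, ← cone_castSucc G]
    exact φ.map_adj_iff

/-- Isomorphic graphs have isomorphic cones. -/
theorem cone_lift {n : ℕ} {G H : SimpleGraph (Fin n)} (φ : G ≃g H) :
    Nonempty (cone G ≃g cone H) := by
  let f : Fin (n + 1) → Fin (n + 1) := fun u =>
    if h : (u : ℕ) < n then (φ ⟨u, h⟩).castSucc else Fin.last n
  have hf1 : ∀ u : Fin n, f u.castSucc = (φ u).castSucc := fun u => dif_pos u.isLt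
  have hf2 : f (Fin.last n) = Fin.last n := dif_neg (lt_irrefl n)
  have hinj : Function.Injective f := by
    intro a b hab
    induction a using Fin.lastCases with
    | last =>
      induction b using Fin.lastCases with
      | last => rfl
      | cast b =>
        rw [hf2, hf1] at hab
        exact absurd hab.symm (Fin.castSucc_lt_last _).ne
    | cast a =>
      induction b using Fin.lastCases with
      | last =>
        rw [hf2, hf1] at hab
        exact absurd hab (Fin.castSucc_lt_last _).ne
      | cast b =>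
        rw [hf1, hf1] at hab
        rw [φ.injective (Fin.castSucc_injective n hab)]
  refine ⟨⟨Equiv.ofBijective f (Finite.injective_iff_bijective.1 hinj), ?_⟩⟩
  intro a b
  show (cone H).Adj (f a) (f b) ↔ (cone G).Adj a b
  induction a using Fin.lastCases with
  | last =>
    induction b using Fin.lastCases with
    | last => exact iff_of_false (cone H).irrefl (cone G).irrefl
    | cast b =>
      rw [hf1, hf2]
      exact iff_of_true (cone_last H (Fin.castSucc_lt_last _).ne)
        (cone_last G (Fin.castSucc_lt_last _).ne)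
  | cast a =>
    induction b using Fin.lastCases with
    | last =>
      rw [hf1, hf2]
      exact iff_of_true (cone_last H (Fin.castSucc_lt_last _).ne).symm
        (cone_last G (Fin.castSucc_lt_last _).ne).symm
    | cast b =>
      rw [hf1, hf1, cone_castSucc, cone_castSucc]
      exact φ.map_adj_iff

end Pool.Agent.H677.JS
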