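import Pool.Agent.H677.JS.Switch
import Pool.Agent.H677.FE.Spec

/-!
# The incidence matrices
-/

set_option autoImplicit false
set_option linter.unusedSectionVars false

namespace Pool.Agent.H677.JS

open Finset Matrix

variable {P : Type} [Fintype P] [DecidableEq P] (R : Type) [CommRing R]

open Classical in
/-- The incidence matrix of 2-subsets and 3-subsets. -/
noncomputable def Nmat (Y : Finset P → Prop) : Matrix (Pr P) (Tr P) R :=
  Matrix.of fun e T => if inc Y e T then 1 else 0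

open Classical in
/-- The incidence matrix of points and 2-subsets. -/
noncomputable def Mmat (P : Type) : Matrix P (Pr P) R :=
  Matrix.of fun p e => if p ∈ e.1 then 1 else 0

variable {R} {Y : Finset P → Prop}

theorem sum_mul_ite {α : Type} [Fintype α] {a b : α → R} {p q : α → Prop} (s : Finset α)
    (ha : ∀ x, (p x → a x = 1) ∧ (¬ p x → a x = 0)) (hb : ∀ x, (q x → b x = 1) ∧ (¬ q x → b x = 0))
    (hs : ∀ x, x ∈ s ↔ p x ∧ q x) : ∑ x, a x * b x = (s.card : R) := by
  classical
  have h1 : ∀ x, a x * b x = if x ∈ s then 1 else 0 := by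
    intro x
    by_cases hp : p x
    · by_cases hq : q x
      · rw [(ha x).1 hp, (hb x).1 hq, if_pos ((hs x).2 ⟨hp, hq⟩), one_mul]
      · rw [(hb x).2 hq, if_neg (fun h : x ∈ s => hq ((hs x).1 h).2), mul_zero]
    · rw [(ha x).2 hp, if_neg (fun h : x ∈ s => hp ((hs x).1 h).1), zero_mul]
  simp only [h1]
  rw [sum_boole]
  congr 2
  ext x
  simp

theorem Nm (e : Pr P) (T : Tr P) : (inc Y e T → Nmat R Y e T = 1) ∧
    (¬ inc Y e T → Nmat R Y e T = 0) :=
  ⟨fun h => if_pos h, fun h => if_neg h⟩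

theorem Mm (p : P) (e : Pr P) : (p ∈ e.1 → Mmat R P p e = 1) ∧
    (¬ p ∈ e.1 → Mmat R P p e = 0) :=
  ⟨fun h => if_pos h, fun h => if_neg h⟩

open Classical in
theorem NtN (hY : Sys Y) : (Nmat R Y)ᵀ * Nmat R Y =
    (col (inc Y)).adjMatrix R + (3 : R) • (1 : Matrix (Tr P) (Tr P) R) := by
  ext T T'
  rw [Matrix.mul_apply, Matrix.add_apply, Matrix.smul_apply, SimpleGraph.adjMatrix_apply,
    Matrix.one_apply]
  have h0 : ∑ e, (Nmat R Y)ᵀ T e * Nmat R Y e T' =
      ((univ.filter fun e => inc Y e T ∧ inc Y e T').card : R) :=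
    sum_mul_ite _ (fun e => Nm e T) (fun e => Nm e T') fun e => by
      rw [mem_filter]
      exact ⟨fun h => h.2, fun h => ⟨mem_univ _, h⟩⟩
  rw [h0]
  by_cases h : T = T'
  · subst h
    have h1 : (univ.filter fun e => inc Y e T ∧ inc Y e T).card = 3 := by
      rw [← card_els hY T]
      refine congrArg card (Finset.ext fun e => ?_)
      rw [mem_filter, mem_els]
      exact ⟨fun h => h.2.1, fun h => ⟨mem_univ _, h, h⟩⟩
    rw [h1, if_neg (col (inc Y)).irrefl, if_pos rfl]
    simp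
  · rw [if_neg h]
    by_cases ha : (col (inc Y)).Adj T T'
    · obtain ⟨_, e, h1, h2⟩ := id ha
      have h3 : (univ.filter fun e => inc Y e T ∧ inc Y e T').card = 1 := by
        rw [card_eq_one]
        refine ⟨e, ?_⟩
        ext f
        rw [mem_filter, mem_singleton]
        constructor
        · rintro ⟨_, h3, h4⟩
          by_contra hne
          exact h (inc_unique hY f e hne T T' h3 h1 h4 h2)
        · rintro rfl
          exact ⟨mem_univ _, h1, h2⟩
      rw [h3, if_pos ha]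
      simp
    · have h3 : (univ.filter fun e => inc Y e T ∧ inc Y e T').card = 0 := by
        rw [card_eq_zero]
        refine filter_eq_empty_iff.2 ?_
        rintro e _ ⟨h1, h2⟩
        exact ha ⟨h, e, h1, h2⟩
      rw [h3, if_neg ha]
      simp

theorem MtM (e f : Pr P) : ((Mmat R P)ᵀ * Mmat R P) e f = ((e.1 ∩ f.1).card : R) := by
  classical
  rw [Matrix.mul_apply]
  exact sum_mul_ite _ (fun p => Mm p e) (fun p => Mm p f) fun p => mem_inter

open Classical in
theorem NNt (hY : Sys Y) : Nmat R Y * (Nmat R Y)ᵀ =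
    ((Fintype.card P : R) - 4) • (1 : Matrix (Pr P) (Pr P) R) + (Mmat R P)ᵀ * Mmat R P := by
  ext e f
  rw [Matrix.add_apply, MtM, Matrix.mul_apply, Matrix.smul_apply, Matrix.one_apply]
  have h0 : ∑ T, Nmat R Y e T * (Nmat R Y)ᵀ T f =
      ((univ.filter fun T => inc Y e T ∧ inc Y f T).card : R) :=
    sum_mul_ite _ (fun T => Nm e T) (fun T => Nm f T) fun T => by
      rw [mem_filter]
      exact ⟨fun h => h.2, fun h => ⟨mem_univ _, h⟩⟩
  rw [h0]
  by_cases h : e = f
  · subst h
    have h1 : (univ.filter fun T => inc Y e T ∧ inc Y e T).card = Fintype.card P - 2 := by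
      rw [← card_bls hY e]
      refine congrArg card (Finset.ext fun T => ?_)
      rw [mem_filter, mem_bls]
      exact ⟨fun h => h.2.1, fun h => ⟨mem_univ _, h, h⟩⟩
    have h2 : 2 ≤ Fintype.card P := e.2.symm.le.trans (card_le_univ _)
    rw [h1, if_pos rfl, Finset.inter_self, e.2, Nat.cast_sub h2]
    simp only [smul_eq_mul, mul_one, Nat.cast_ofNat]
    ring
  · rw [card_both hY h, if_neg h]
    simp

open Classical in
theorem MMt : Mmat R P * (Mmat R P)ᵀ =
    ((Fintype.card P : R) - 2) • (1 : Matrix P P R) + Matrix.of fun _ _ => 1 := by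
  ext p q
  rw [Matrix.add_apply, Matrix.mul_apply, Matrix.smul_apply, Matrix.one_apply, Matrix.of_apply]
  have h0 : ∑ e, Mmat R P p e * (Mmat R P)ᵀ e q =
      ((univ.filter fun e : Pr P => p ∈ e.1 ∧ q ∈ e.1).card : R) :=
    sum_mul_ite _ (fun e => Mm p e) (fun e => Mm q e) fun e => by
      rw [mem_filter]
      exact ⟨fun h => h.2, fun h => ⟨mem_univ _, h⟩⟩
  rw [h0]
  by_cases h : p = q
  · subst h
    have h1 : (univ.filter fun e : Pr P => p ∈ e.1 ∧ p ∈ e.1).card = Fintype.card P - 1 := by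
      rw [← card_bls_incP p]
      refine congrArg card (Finset.ext fun e => ?_)
      rw [mem_filter, mem_bls]
      exact ⟨fun h => h.2.1, fun h => ⟨mem_univ _, h, h⟩⟩
    have h2 : 1 ≤ Fintype.card P := Fintype.card_pos_iff.2 ⟨p⟩
    rw [h1, if_pos rfl, Nat.cast_sub h2]
    simp only [smul_eq_mul, mul_one, Nat.cast_one]
    ring
  · have h1 : (univ.filter fun e : Pr P => p ∈ e.1 ∧ q ∈ e.1).card = 1 := by
      rw [card_eq_one]
      refine ⟨⟨{p, q}, card_pair h⟩, ?_⟩
      ext f
      rw [mem_filter, mem_singleton]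
      constructor
      · rintro ⟨_, h3, h4⟩
        refine incP_unique p q h f ⟨{p, q}, card_pair h⟩ h3 h4 ?_ ?_
        · exact mem_insert_self _ _
        · exact mem_insert_of_mem (mem_singleton_self _)
      · rintro rfl
        exact ⟨mem_univ _, mem_insert_self _ _, mem_insert_of_mem (mem_singleton_self _)⟩
    rw [h1, if_neg h]
    simp

open Classical in
/-- All these graphs are cospectral. -/
theorem charpoly_eq {Y' : Finset P → Prop} (hY : Sys Y) (hY' : Sys Y') :
    ((col (inc Y)).adjMatrix ℤ).charpoly = ((col (inc Y')).adjMatrix ℤ).charpoly := by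
  have h1 : ∀ {Y : Finset P → Prop}, Sys Y → (col (inc Y)).adjMatrix ℤ =
      (Nmat ℤ Y)ᵀ * Nmat ℤ Y - Matrix.scalar (Tr P) 3 := by
    intro Y hY
    rw [NtN hY, eq_sub_iff_add_eq, Matrix.smul_one_eq_diagonal]
    rfl
  have h2 : ((Nmat ℤ Y)ᵀ * Nmat ℤ Y).charpoly = ((Nmat ℤ Y')ᵀ * Nmat ℤ Y').charpoly := by
    have e1 := Matrix.charpoly_mul_comm' (Nmat ℤ Y) (Nmat ℤ Y)ᵀ
    have e2 := Matrix.charpoly_mul_comm' (Nmat ℤ Y') (Nmat ℤ Y')ᵀ
    rw [NNt hY] at e1
    rw [NNt hY', e1] at e2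
    exact mul_left_cancel₀ (pow_ne_zero _ Polynomial.X_ne_zero) e2
  rw [h1 hY, h1 hY', Matrix.charpoly_sub_scalar, Matrix.charpoly_sub_scalar, h2]

open Classical in
/-- The graph is regular. -/
theorem regular (hY : Sys Y) (T : Tr P) :
    ((col (inc Y)).degree T : ℤ) = 3 * (Fintype.card P : ℤ) - 9 := by
  have h1 := SimpleGraph.adjMatrix_mulVec_const_apply (G := col (inc Y)) (α := ℤ) (a := 1) (v := T)
  have h2 : (col (inc Y)).adjMatrix ℤ = (Nmat ℤ Y)ᵀ * Nmat ℤ Y - (3 : ℤ) • 1 := by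
    rw [NtN hY, add_sub_cancel_right]
  have hcard : 2 ≤ Fintype.card P := (by omega : 2 ≤ 3).trans (T.2.symm.le.trans (card_le_univ _))
  have h3 : Nmat ℤ Y *ᵥ (fun _ => 1) = fun _ => ((Fintype.card P : ℤ) - 2) := by
    funext e
    rw [Matrix.mulVec, dotProduct]
    have : ∀ T, Nmat ℤ Y e T * 1 = if inc Y e T then 1 else 0 := fun T => mul_one _
    simp only [this]
    rw [sum_boole]
    have h4 : (univ.filter fun T => inc Y e T).card = Fintype.card P - 2 := by
      rw [← card_bls hY e]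
      refine congrArg card (Finset.ext fun T => ?_)
      rw [mem_filter, mem_bls]
      exact ⟨fun h => h.2, fun h => ⟨mem_univ _, h⟩⟩
    rw [h4, Nat.cast_sub hcard]
    rfl
  have h4 : ((Nmat ℤ Y)ᵀ *ᵥ fun _ => ((Fintype.card P : ℤ) - 2)) T =
      3 * ((Fintype.card P : ℤ) - 2) := by
    rw [Matrix.mulVec, dotProduct, ← Finset.sum_mul]
    have : ∀ e, (Nmat ℤ Y)ᵀ T e = if inc Y e T then 1 else 0 := fun e => rfl
    simp only [this]
    rw [sum_boole]
    have h4 : (univ.filter fun e => inc Y e T).card = 3 := by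
      rw [← card_els hY T]
      refine congrArg card (Finset.ext fun e => ?_)
      rw [mem_filter, mem_els]
      exact ⟨fun h => h.2, fun h => ⟨mem_univ _, h⟩⟩
    rw [h4]
    rfl
  have h5 : ((col (inc Y)).adjMatrix ℤ *ᵥ Function.const _ 1) T =
      3 * ((Fintype.card P : ℤ) - 2) - 3 := by
    rw [h2, Matrix.sub_mulVec, ← Matrix.mulVec_mulVec]
    show ((Nmat ℤ Y)ᵀ *ᵥ (Nmat ℤ Y *ᵥ fun _ => 1)) T - _ = _
    rw [h3, h4, Matrix.smul_mulVec, Matrix.one_mulVec]
    simp
  rw [h5] at h1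
  rw [← mul_one ((col (inc Y)).degree T : ℤ), ← h1]
  ring

end Pool.Agent.H677.JS
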