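import Pool.Agent.H677.JS.Double
import Pool.Agent.H677.JS.Eig

/-!
# The graph of a graph
-/

set_option autoImplicit false
set_option linter.unusedSectionVars false

namespace Pool.Agent.H677.JS

open Finset

/-- The vertex of a point. -/
def pr (n : ℕ) (p : Fin (n + n)) : Fin n :=
  ⟨(p : ℕ) % n, Nat.mod_lt _ (by have := p.isLt; omega)⟩

theorem two_pr (n : ℕ) : Two (pr n) := by
  intro v
  rw [card_eq_two]
  have hv := v.isLt
  refine ⟨⟨v, by omega⟩, ⟨v + n, by omega⟩, ?_, ?_⟩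
  · intro h
    have := congrArg (fun x : Fin (n + n) => (x : ℕ)) h
    simp only at this
    omega
  · ext p
    rw [mem_filter, mem_insert, mem_singleton]
    have hp := p.isLt
    constructor
    · rintro ⟨_, h⟩
      have h1 : (p : ℕ) % n = v := congrArg (fun x : Fin n => (x : ℕ)) h
      rcases Nat.lt_or_ge (p : ℕ) n with h2 | h2
      · rw [Nat.mod_eq_of_lt h2] at h1
        exact Or.inl (Fin.ext h1)
      · rw [Nat.mod_eq_sub_mod h2, Nat.mod_eq_of_lt (by omega)] at h1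
        refine Or.inr (Fin.ext ?_)
        show (p : ℕ) = v + n
        omega
    · rintro (rfl | rfl)
      · refine ⟨mem_univ _, Fin.ext ?_⟩
        show (v : ℕ) % n = v
        exact Nat.mod_eq_of_lt hv
      · refine ⟨mem_univ _, Fin.ext ?_⟩
        show ((v : ℕ) + n) % n = v
        rw [Nat.add_mod_right, Nat.mod_eq_of_lt hv]

section

variable {V V' P P' : Type} [Fintype V] [DecidableEq V] [Fintype P] [DecidableEq P]
  [Fintype V'] [DecidableEq V'] [Fintype P'] [DecidableEq P']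
  {pr : P → V} {pr' : P' → V'}

theorem exists_points (h2 : Two pr) (h2' : Two pr') (φ : V ≃ V') :
    ∃ π : P ≃ P', ∀ p, pr' (π p) = φ (pr p) := by
  have hF : ∀ v, Nonempty ({p // pr p = v} ≃ {p' // pr' p' = φ v}) := by
    intro v
    refine ⟨Fintype.equivOfCardEq ?_⟩
    rw [Fintype.card_subtype, Fintype.card_subtype, h2 v, h2' (φ v)]
  let F : ∀ v, {p // pr p = v} ≃ {p' // pr' p' = φ v} := fun v => Classical.choice (hF v)
  refine ⟨(Equiv.sigmaFiberEquiv pr).symm.trans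
    ((Equiv.sigmaCongr φ F).trans (Equiv.sigmaFiberEquiv pr')), fun p => ?_⟩
  exact (F (pr p) ⟨p, rfl⟩).2

end

/-- The graph on the 3-subsets of the points. -/
def XG {n : ℕ} (G : SimpleGraph (Fin n)) : SimpleGraph (Tr (Fin (n + n))) :=
  col (inc (YG G (pr n)))

theorem sys {n : ℕ} (G : SimpleGraph (Fin n)) : Sys (YG G (pr n)) := sys_YG (two_pr n)

theorem XG_lift {n : ℕ} {G H : SimpleGraph (Fin n)} (φ : G ≃g H) : Nonempty (XG G ≃g XG H) := by
  obtain ⟨π, hπ⟩ := exists_points (two_pr n) (two_pr n) φ.toEquiv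
  exact lift_sys π fun S => map_YG π φ hπ S

theorem XG_recover {n n' : ℕ} {G : SimpleGraph (Fin n)} {H : SimpleGraph (Fin n')} (hn : 5 ≤ n)
    (hn' : 5 ≤ n') (hG : ∀ v, ∃ w₁ w₂, w₁ ≠ w₂ ∧ G.Adj v w₁ ∧ G.Adj v w₂)
    (hH : ∀ v, ∃ w₁ w₂, w₁ ≠ w₂ ∧ H.Adj v w₁ ∧ H.Adj v w₂) (φ : XG G ≃g XG H) :
    Nonempty (G ≃g H) := by
  obtain ⟨π, hπ⟩ := recover_sys (sys G) (sys H) (by rw [Fintype.card_fin]; omega)
    (by rw [Fintype.card_fin]; omega) φ
  exact recover_graph (two_pr n) (two_pr n') π hπ hG hH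

/-! ### Five cones -/

/-- Five additional vertices. -/
def cone5 {n : ℕ} (G : SimpleGraph (Fin n)) : SimpleGraph (Fin (n + 1 + 1 + 1 + 1 + 1)) :=
  cone (cone (cone (cone (cone G))))

theorem cone5_lift {n : ℕ} {G H : SimpleGraph (Fin n)} (φ : G ≃g H) :
    Nonempty (cone5 G ≃g cone5 H) := by
  obtain ⟨φ⟩ := cone_lift φ
  obtain ⟨φ⟩ := cone_lift φ
  obtain ⟨φ⟩ := cone_lift φ
  obtain ⟨φ⟩ := cone_lift φ
  exact cone_lift φ

theorem cone5_cancel {n n' : ℕ} {G : SimpleGraph (Fin n)} {H : SimpleGraph (Fin n')}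
    (φ : cone5 G ≃g cone5 H) : Nonempty (G ≃g H) := by
  obtain ⟨φ⟩ := cone_cancel φ
  obtain ⟨φ⟩ := cone_cancel φ
  obtain ⟨φ⟩ := cone_cancel φ
  obtain ⟨φ⟩ := cone_cancel φ
  exact cone_cancel φ

theorem cone_dom {N a : ℕ} {K : SimpleGraph (Fin N)}
    (h : ∀ u w : Fin N, a ≤ (u : ℕ) → u ≠ w → K.Adj u w) (u w : Fin (N + 1))
    (hu : a ≤ (u : ℕ)) (huw : u ≠ w) : (cone K).Adj u w :=
  ⟨huw, fun h1 h2 => h ⟨u, h1⟩ ⟨w, h2⟩ hu fun h3 => huw (Fin.ext (congrArg (fun x : Fin N => (x : ℕ)) h3))⟩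

theorem cone5_dom {n : ℕ} (G : SimpleGraph (Fin n)) (u w : Fin (n + 1 + 1 + 1 + 1 + 1))
    (hu : n ≤ (u : ℕ)) (huw : u ≠ w) : (cone5 G).Adj u w := by
  have h0 : ∀ u w : Fin n, n ≤ (u : ℕ) → u ≠ w → G.Adj u w :=
    fun u _ h _ => absurd u.isLt (not_lt.2 h)
  exact cone_dom (cone_dom (cone_dom (cone_dom (cone_dom h0)))) u w hu huw

theorem cone5_deg {n : ℕ} (G : SimpleGraph (Fin n)) (v : Fin (n + 1 + 1 + 1 + 1 + 1)) :
    ∃ w₁ w₂, w₁ ≠ w₂ ∧ (cone5 G).Adj v w₁ ∧ (cone5 G).Adj v w₂ := by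
  have key : ∀ a b : ℕ, n ≤ a → n ≤ b → a < n + 1 + 1 + 1 + 1 + 1 → b < n + 1 + 1 + 1 + 1 + 1 →
      a ≠ b → (v : ℕ) ≠ a → (v : ℕ) ≠ b →
      ∃ w₁ w₂, w₁ ≠ w₂ ∧ (cone5 G).Adj v w₁ ∧ (cone5 G).Adj v w₂ := by
    intro a b ha hb ha' hb' hab h1 h2
    refine ⟨⟨a, ha'⟩, ⟨b, hb'⟩, ?_, ?_, ?_⟩
    · intro h
      exact hab (congrArg (fun x : Fin (n + 1 + 1 + 1 + 1 + 1) => (x : ℕ)) h)
    · refine (cone5_dom G _ _ ha ?_).symm
      intro h
      exact h1 (congrArg (fun x : Fin (n + 1 + 1 + 1 + 1 + 1) => (x : ℕ)) h).symm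
    · refine (cone5_dom G _ _ hb ?_).symm
      intro h
      exact h2 (congrArg (fun x : Fin (n + 1 + 1 + 1 + 1 + 1) => (x : ℕ)) h).symm
  by_cases h1 : (v : ℕ) = n
  · exact key (n + 1) (n + 2) (by omega) (by omega) (by omega) (by omega) (by omega) (by omega)
      (by omega)
  · by_cases h2 : (v : ℕ) = n + 1
    · exact key n (n + 2) (by omega) (by omega) (by omega) (by omega) (by omega) (by omega)
        (by omega)
    · exact key n (n + 1) (by omega) (by omega) (by omega) (by omega) (by omega) (by omega)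
        (by omega)

theorem XG5_iff {n n' : ℕ} (G : SimpleGraph (Fin n)) (H : SimpleGraph (Fin n')) :
    Nonempty (XG (cone5 G) ≃g XG (cone5 H)) ↔ Nonempty (G ≃g H) := by
  constructor
  · rintro ⟨φ⟩
    obtain ⟨ψ⟩ := XG_recover (by omega) (by omega) (cone5_deg G) (cone5_deg H) φ
    exact cone5_cancel ψ
  · rintro ⟨φ⟩
    have hnn : n = n' := by
      have := Fintype.card_congr φ.toEquiv
      simpa using this
    subst hnn
    obtain ⟨ψ⟩ := cone5_lift φ
    exact XG_lift ψ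

/-! ### The Johnson graph -/

/-- The Johnson graph `J(m,3)`: the 3-subsets of an `m`-set, adjacent if they have exactly two
common elements. -/
def johnson (m : ℕ) : SimpleGraph {T : Finset (Fin m) // T.card = 3} where
  Adj S T := (S.1 ∩ T.1).card = 2
  symm := ⟨fun S T h => by rw [Finset.inter_comm]; exact h⟩
  loopless := ⟨fun S h => by rw [Finset.inter_self, S.2] at h; omega⟩

theorem sys_false {P : Type} [Fintype P] [DecidableEq P] : Sys (fun _ : Finset P => False) :=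
  ⟨fun _ h => h.elim, fun _ _ h => h.elim⟩

theorem johnson_eq (m : ℕ) : johnson m = col (inc (fun _ : Finset (Fin m) => False)) := by
  ext S T
  show (S.1 ∩ T.1).card = 2 ↔ S ≠ T ∧ ∃ e, inc _ e S ∧ inc _ e T
  have hinc : ∀ (e : Pr (Fin m)) (T : Tr (Fin m)), inc (fun _ : Finset (Fin m) => False) e T ↔
      e.1 ⊆ T.1 := by
    intro e T
    constructor
    · rintro (h | ⟨_, h, _⟩)
      · exact h.1
      · exact h.elim
    · exact fun h => Or.inl ⟨h, fun _ h' => h'.elim⟩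
  simp only [hinc]
  constructor
  · intro h
    refine ⟨?_, ⟨S.1 ∩ T.1, h⟩, inter_subset_left, inter_subset_right⟩
    rintro rfl
    rw [Finset.inter_self, S.2] at h
    omega
  · rintro ⟨hne, e, h1, h2⟩
    have h3 : 2 ≤ (S.1 ∩ T.1).card := by
      rw [← e.2]
      exact card_le_card (subset_inter h1 h2)
    have h4 : (S.1 ∩ T.1).card ≤ 3 := (card_le_card inter_subset_left).trans S.2.le
    have h5 : (S.1 ∩ T.1).card ≠ 3 := by
      intro h5
      apply hne
      have h6 : S.1 ∩ T.1 = S.1 := eq_of_subset_of_card_le inter_subset_left (by rw [h5, S.2])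
      have h7 : S.1 ∩ T.1 = T.1 := eq_of_subset_of_card_le inter_subset_right (by rw [h5, T.2])
      exact Subtype.ext (h6.symm.trans h7)
    omega

open Classical in
/-- The graph is cospectral with the Johnson graph. -/
theorem XG_charpoly {n : ℕ} (G : SimpleGraph (Fin n)) :
    ((XG G).adjMatrix ℤ).charpoly = ((johnson (n + n)).adjMatrix ℤ).charpoly := by
  have h1 := charpoly_eq (sys G) (sys_false (P := Fin (n + n)))
  have h2 := johnson_eq (n + n)
  have h3 : ∀ K : SimpleGraph (Tr (Fin (n + n))), johnson (n + n) = K →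
      ((johnson (n + n)).adjMatrix ℤ).charpoly = (K.adjMatrix ℤ).charpoly := by
    rintro K rfl
    rfl
  rw [h3 _ h2, ← h1]
  rfl

end Pool.Agent.H677.JS
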