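import Mathlib

/-!
# Collinearity graphs of linear spaces with short blocks determine the space
-/

set_option autoImplicit false
set_option linter.unusedSectionVars false

namespace Pool.Agent.H677.JS

open Finset

/-- Two blocks are adjacent if they are different and have a common element. -/
def col {E B : Type} (inc : E → B → Prop) : SimpleGraph B where
  Adj s t := s ≠ t ∧ ∃ e, inc e s ∧ inc e t
  symm := ⟨fun _ _ h => ⟨h.1.symm, h.2.imp fun _ h' => ⟨h'.2, h'.1⟩⟩⟩
  loopless := ⟨fun _ h => h.1 rfl⟩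

section

variable {E B : Type} [Fintype E] [Fintype B] {inc : E → B → Prop} {k : ℕ}

open Classical in
/-- The elements of a block. -/
noncomputable def els (inc : E → B → Prop) (t : B) : Finset E := univ.filter fun e => inc e t

open Classical in
/-- The blocks on an element. -/
noncomputable def bls (inc : E → B → Prop) (e : E) : Finset B := univ.filter fun t => inc e t

theorem mem_els {e : E} {t : B} : e ∈ els inc t ↔ inc e t := by
  simp only [els, Finset.mem_filter, Finset.mem_univ, true_and]

theorem mem_bls {e : E} {t : B} : t ∈ bls inc e ↔ inc e t := by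
  simp only [bls, Finset.mem_filter, Finset.mem_univ, true_and]

/-- Large cliques are contained in a line. -/
theorem clique_line (hk : ∀ t, (els inc t).card ≤ k)
    (hu : ∀ e f, e ≠ f → ∀ s t, inc e s → inc f s → inc e t → inc f t → s = t)
    (K : Finset B) (hK : ∀ s ∈ K, ∀ t ∈ K, s ≠ t → (col inc).Adj s t)
    (hc : k * (k - 1) + 2 ≤ K.card) : ∃ e, ∀ t ∈ K, inc e t := by
  classical
  obtain ⟨t₀, ht₀⟩ : K.Nonempty := by
    rw [← Finset.card_pos]
    omega
  have h1 : ∀ s ∈ K.erase t₀, ∃ e, inc e t₀ ∧ inc e s := by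
    intro s hs
    rw [mem_erase] at hs
    exact (hK t₀ ht₀ s hs.2 (Ne.symm hs.1)).2
  obtain ⟨e₀, he₀⟩ : ∃ e : E, True := by
    have : (K.erase t₀).Nonempty := by
      rw [← Finset.card_pos, card_erase_of_mem ht₀]
      omega
    obtain ⟨s, hs⟩ := this
    obtain ⟨e, _⟩ := h1 s hs
    exact ⟨e, trivial⟩
  let g : B → E := fun s => if h : s ∈ K.erase t₀ then (h1 s h).choose else e₀
  have hg : ∀ s ∈ K.erase t₀, inc (g s) t₀ ∧ inc (g s) s := by
    intro s hs
    have : g s = (h1 s hs).choose := dif_pos hs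
    rw [this]
    exact (h1 s hs).choose_spec
  have hcard : (els inc t₀).card * (k - 1) < (K.erase t₀).card := by
    rw [card_erase_of_mem ht₀]
    have := Nat.mul_le_mul_right (k - 1) (hk t₀)
    omega
  obtain ⟨e, he, hfib⟩ := exists_lt_card_fiber_of_mul_lt_card_of_maps_to
    (f := g) (s := K.erase t₀) (t := els inc t₀) (n := k - 1)
    (fun s hs => mem_els.2 (hg s hs).1) hcard
  have hk0 : 0 < k := by
    have h2 := hk t₀
    have h3 : 0 < (els inc t₀).card := Finset.card_pos.2 ⟨e, he⟩
    omega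
  refine ⟨e, fun t ht => ?_⟩
  by_contra hcon
  let F : Finset B := K.filter fun s => inc e s
  have hF : k < F.card := by
    have h2 : insert t₀ ((K.erase t₀).filter fun s => g s = e) ⊆ F := by
      intro s hs
      rw [mem_insert, mem_filter] at hs
      rw [mem_filter]
      rcases hs with rfl | ⟨hs, rfl⟩
      · exact ⟨ht₀, mem_els.1 he⟩
      · exact ⟨(mem_erase.1 hs).2, (hg s hs).2⟩
    have h3 := card_le_card h2
    rw [card_insert_of_notMem] at h3
    · omega
    · intro h4
      rw [mem_filter, mem_erase] at h4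
      exact h4.1.1 rfl
  have h2 : ∀ s ∈ F, ∃ f, inc f t ∧ inc f s := by
    intro s hs
    rw [mem_filter] at hs
    have hne : t ≠ s := by
      rintro rfl
      exact hcon hs.2
    exact (hK t ht s hs.1 hne).2
  let h : B → E := fun s => if hs : s ∈ F then (h2 s hs).choose else e₀
  have hh : ∀ s ∈ F, inc (h s) t ∧ inc (h s) s := by
    intro s hs
    have : h s = (h2 s hs).choose := dif_pos hs
    rw [this]
    exact (h2 s hs).choose_spec
  have h3 : F.card ≤ (els inc t).card := by
    refine card_le_card_of_injOn h (fun s hs => ?_) ?_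
    · exact Finset.mem_coe.2 (mem_els.2 (hh s hs).1)
    · intro s hs s' hs' hss
      have e1 := hh s hs
      have e2 := hh s' hs'
      rw [← hss] at e2
      have e3 : e ≠ h s := by
        intro h4
        rw [← h4] at e1
        exact hcon e1.1
      exact hu e (h s) e3 s s' (mem_filter.1 hs).2 e1.2 (mem_filter.1 hs').2 e2.2
  have := hk t
  omega

theorem col_adj {s t : B} : (col inc).Adj s t ↔ s ≠ t ∧ ∃ e, inc e s ∧ inc e t := Iff.rfl

theorem bls_clique (e : E) : ∀ s ∈ bls inc e, ∀ t ∈ bls inc e, s ≠ t → (col inc).Adj s t :=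
  fun _ hs _ ht hne => ⟨hne, e, mem_bls.1 hs, mem_bls.1 ht⟩

end

/-- **The collinearity graph determines the lines.** -/
theorem line_recovery {E B E' B' : Type} [Fintype E] [Fintype B] [Fintype E'] [Fintype B']
    {inc : E → B → Prop} {inc' : E' → B' → Prop} {k : ℕ}
    (hk : ∀ t, (els inc t).card ≤ k) (hk' : ∀ t, (els inc' t).card ≤ k)
    (hu : ∀ e f, e ≠ f → ∀ s t, inc e s → inc f s → inc e t → inc f t → s = t)
    (hu' : ∀ e f, e ≠ f → ∀ s t, inc' e s → inc' f s → inc' e t → inc' f t → s = t)
    (hl : ∀ e, k * (k - 1) + 2 ≤ (bls inc e).card)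
    (hl' : ∀ e, k * (k - 1) + 2 ≤ (bls inc' e).card)
    (φ : col inc ≃g col inc') :
    ∃ ψ : E ≃ E', ∀ e t, inc' (ψ e) (φ t) ↔ inc e t := by
  classical
  -- one direction
  have key : ∀ {E B E' B' : Type} [Fintype E] [Fintype B] [Fintype E'] [Fintype B']
      {inc : E → B → Prop} {inc' : E' → B' → Prop}
      (_ : ∀ t, (els inc' t).card ≤ k)
      (_ : ∀ e f, e ≠ f → ∀ s t, inc' e s → inc' f s → inc' e t → inc' f t → s = t)
      (_ : ∀ e, k * (k - 1) + 2 ≤ (bls inc e).card)
      (φ : col inc ≃g col inc') (e : E), ∃ e', ∀ t, inc e t → inc' e' (φ t) := by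
    intro E B E' B' _ _ _ _ inc inc' hk' hu' hl φ e
    obtain ⟨e', he'⟩ := clique_line hk' hu' ((bls inc e).map φ.toEquiv.toEmbedding) (by
      intro s hs t ht hne
      rw [mem_map] at hs ht
      obtain ⟨s, hs, rfl⟩ := hs
      obtain ⟨t, ht, rfl⟩ := ht
      exact φ.map_adj_iff.2 (bls_clique e s hs t ht fun h => hne (by rw [h])))
      (by rw [card_map]; exact hl e)
    exact ⟨e', fun t ht => he' _ (mem_map.2 ⟨t, mem_bls.2 ht, rfl⟩)⟩
  -- two elements with the same blocks are equal
  have uniq : ∀ {E B : Type} [Fintype E] [Fintype B] {inc : E → B → Prop}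
      (_ : ∀ e f, e ≠ f → ∀ s t, inc e s → inc f s → inc e t → inc f t → s = t)
      (_ : ∀ e, k * (k - 1) + 2 ≤ (bls inc e).card) (e f : E), (∀ t, inc e t → inc f t) → e = f := by
    intro E B _ _ inc hu hl e f h
    by_contra hne
    have h1 : 1 < (bls inc e).card := by
      have := hl e
      omega
    obtain ⟨s, hs, t, ht, hst⟩ := Finset.one_lt_card.1 h1
    exact hst (hu e f hne s t (mem_bls.1 hs) (h s (mem_bls.1 hs)) (mem_bls.1 ht)
      (h t (mem_bls.1 ht)))
  have h1 := key hk' hu' hl φ
  have h2 := key hk hu hl' φ.symm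
  choose f hf using h1
  choose g hg using h2
  have hgf : ∀ e, g (f e) = e := fun e => (uniq hu hl e (g (f e)) fun t ht => by
    have h3 := hg (f e) (φ t) (hf e t ht)
    rwa [RelIso.symm_apply_apply] at h3).symm
  have hfg : ∀ e, f (g e) = e := fun e => (uniq hu' hl' e (f (g e)) fun t ht => by
    have h3 := hf (g e) (φ.symm t) (hg e t ht)
    rwa [RelIso.apply_symm_apply] at h3).symm
  refine ⟨⟨f, g, hgf, hfg⟩, fun e t => ⟨fun h => ?_, hf e t⟩⟩
  have h3 := hg (f e) (φ t) h
  rwa [hgf, RelIso.symm_apply_apply] at h3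

end Pool.Agent.H677.JS
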