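import Pool.Agent.H677.JS.Switch

/-!
# The points and the switched 4-subsets are determined by the graph
-/

set_option autoImplicit false
set_option linter.unusedSectionVars false

namespace Pool.Agent.H677.JS

open Finset

variable {P P' : Type} [Fintype P] [DecidableEq P] [Fintype P'] [DecidableEq P']
  {Y : Finset P → Prop} {Y' : Finset P' → Prop}

theorem card_els_le (hY : Sys Y) (T : Tr P) : (els (inc Y) T).card ≤ 3 := (card_els hY T).le

theorem switch_map (hY : Sys Y) (hY' : Sys Y') (π : P ≃ P') (ψ : Pr P ≃ Pr P') (φ : Tr P → Tr P')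
    (hφ : ∀ e T, inc Y' (ψ e) (φ T) ↔ inc Y e T)
    (hψ : ∀ e, (ψ e).1 = e.1.map π.toEmbedding) (S : Finset P) (hS : Y S) :
    Y' (S.map π.toEmbedding) := by
  have h4 := hY.four S hS
  obtain ⟨d, hd⟩ : S.Nonempty := by
    rw [← Finset.card_pos]
    omega
  have hT3 : (S.erase d).card = 3 := by rw [card_erase_of_mem hd, h4]
  let T : Tr P := ⟨S.erase d, hT3⟩
  have hne : ∀ x ∈ S.erase d, d ≠ x := fun x hx => Ne.symm (mem_erase.1 hx).1
  have hinc : ∀ x (hx : x ∈ S.erase d), inc Y ⟨{d, x}, card_pair (hne x hx)⟩ T := by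
    intro x hx
    refine Or.inr ⟨S, hS, erase_subset _ _, ?_, ?_⟩
    · intro y hy
      rcases mem_insert.1 hy with rfl | hy
      · exact hd
      · rw [mem_singleton.1 hy]
        exact (mem_erase.1 hx).2
    · intro h
      exact (mem_erase.1 (h (mem_insert_self _ _))).1 rfl
  have hinc' : ∀ x (hx : x ∈ S.erase d), ∃ e' : Pr P', π d ∈ e'.1 ∧ π x ∈ e'.1 ∧
      inc Y' e' (φ T) := by
    intro x hx
    refine ⟨ψ ⟨{d, x}, card_pair (hne x hx)⟩, ?_, ?_, (hφ _ _).2 (hinc x hx)⟩
    · rw [hψ, mem_map_equiv, Equiv.symm_apply_apply]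
      exact mem_insert_self _ _
    · rw [hψ, mem_map_equiv, Equiv.symm_apply_apply]
      exact mem_insert_of_mem (mem_singleton_self _)
  have hcover : ∀ Z : Finset P', (∀ x (hx : x ∈ S.erase d), ∀ e' : Pr P', inc Y' e' (φ T) →
      e'.1 ⊆ Z) → S.map π.toEmbedding ⊆ Z := by
    intro Z hZ y hy
    rw [mem_map_equiv] at hy
    obtain ⟨x₀, hx₀⟩ : (S.erase d).Nonempty := by
      rw [← Finset.card_pos]
      omega
    by_cases hyd : π.symm y = d
    · obtain ⟨e', h1, _, h3⟩ := hinc' x₀ hx₀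
      have := hZ x₀ hx₀ e' h3 h1
      rwa [← hyd, Equiv.apply_symm_apply] at this
    · have hmem : π.symm y ∈ S.erase d := mem_erase.2 ⟨hyd, hy⟩
      obtain ⟨e', _, h2, h3⟩ := hinc' _ hmem
      have := hZ _ hmem e' h3 h2
      rwa [Equiv.apply_symm_apply] at this
  obtain ⟨x₀, hx₀⟩ : (S.erase d).Nonempty := by
    rw [← Finset.card_pos]
    omega
  obtain ⟨e₀, _, _, h0⟩ := hinc' x₀ hx₀
  rcases h0 with ⟨_, hn⟩ | ⟨S', hS', hTS, _, _⟩
  · exfalso
    have h1 : S.map π.toEmbedding ⊆ (φ T).1 := by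
      refine hcover _ fun x hx e' he' => ?_
      rcases he' with ⟨h2, _⟩ | ⟨S', hS', hTS, _⟩
      · exact h2
      · exact absurd hTS (hn S' hS')
    have h2 := card_le_card h1
    rw [card_map, h4, (φ T).2] at h2
    omega
  · have h1 : S.map π.toEmbedding ⊆ S' := by
      refine hcover _ fun x hx e' he' => ?_
      rcases he' with ⟨_, hn⟩ | ⟨S'', hS'', hTS', h2, _⟩
      · exact absurd hTS (hn S' hS')
      · have h3 := hY'.unique hS'' hS' (φ T).2.ge hTS' hTS
        rw [← h3]
        exact h2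
    have h2 : S.map π.toEmbedding = S' :=
      eq_of_subset_of_card_le h1 (by rw [card_map, h4, hY'.four S' hS'])
    rw [h2]
    exact hS'

/-- **An isomorphism of the graphs comes from a bijection of the points.** -/
theorem recover_sys (hY : Sys Y) (hY' : Sys Y') (hP : 10 ≤ Fintype.card P)
    (hP' : 10 ≤ Fintype.card P') (φ : col (inc Y) ≃g col (inc Y')) :
    ∃ π : P ≃ P', ∀ S : Finset P, Y' (S.map π.toEmbedding) ↔ Y S := by
  obtain ⟨ψ, hψ⟩ := line_recovery (k := 3) (card_els_le hY) (card_els_le hY')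
    (fun e f hne s t h1 h2 h3 h4 => inc_unique hY e f hne s t h1 h2 h3 h4)
    (fun e f hne s t h1 h2 h3 h4 => inc_unique hY' e f hne s t h1 h2 h3 h4)
    (fun e => by rw [card_bls hY]; omega) (fun e => by rw [card_bls hY']; omega) φ
  have hadj : ∀ e f : Pr P, (col (incP : P → Pr P → Prop)).Adj e f ↔
      e ≠ f ∧ ∃ T, inc Y e T ∧ inc Y f T := by
    intro e f
    constructor
    · rintro ⟨hne, p, h1, h2⟩
      exact ⟨hne, inc_exists hY hne ⟨p, mem_inter.2 ⟨h1, h2⟩⟩⟩
    · rintro ⟨hne, T, h1, h2⟩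
      obtain ⟨p, hp⟩ := inc_meet hY h1 h2
      exact ⟨hne, p, (mem_inter.1 hp).1, (mem_inter.1 hp).2⟩
  have hadj' : ∀ e f : Pr P', (col (incP : P' → Pr P' → Prop)).Adj e f ↔
      e ≠ f ∧ ∃ T, inc Y' e T ∧ inc Y' f T := by
    intro e f
    constructor
    · rintro ⟨hne, p, h1, h2⟩
      exact ⟨hne, inc_exists hY' hne ⟨p, mem_inter.2 ⟨h1, h2⟩⟩⟩
    · rintro ⟨hne, T, h1, h2⟩
      obtain ⟨p, hp⟩ := inc_meet hY' h1 h2
      exact ⟨hne, p, (mem_inter.1 hp).1, (mem_inter.1 hp).2⟩
  let Ψ : col (incP : P → Pr P → Prop) ≃g col (incP : P' → Pr P' → Prop) :=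
    ⟨ψ, by
      intro e f
      refine (hadj' _ _).trans (Iff.trans ?_ (hadj _ _).symm)
      refine and_congr ψ.injective.ne_iff ?_
      constructor
      · rintro ⟨T, h1, h2⟩
        obtain ⟨T, rfl⟩ := φ.surjective T
        exact ⟨T, (hψ e T).1 h1, (hψ f T).1 h2⟩
      · rintro ⟨T, h1, h2⟩
        exact ⟨φ T, (hψ e T).2 h1, (hψ f T).2 h2⟩⟩
  obtain ⟨π, hπ⟩ := line_recovery (k := 2) (fun e => (card_els_incP e).le)
    (fun e => (card_els_incP e).le) incP_unique incP_unique
    (fun p => by rw [card_bls_incP]; omega) (fun p => by rw [card_bls_incP]; omega) Ψ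
  have h1 : ∀ e, (ψ e).1 = e.1.map π.toEmbedding := by
    intro e
    ext y
    rw [mem_map_equiv]
    have := hπ (π.symm y) e
    rw [Equiv.apply_symm_apply] at this
    exact this
  have h2 : ∀ e, (ψ.symm e).1 = e.1.map π.symm.toEmbedding := by
    intro e
    ext y
    rw [mem_map_equiv]
    have := hπ y (ψ.symm e)
    rw [Equiv.symm_symm]
    have h3 : (Ψ (ψ.symm e)) = e := ψ.apply_symm_apply e
    rw [h3] at this
    exact this.symm
  refine ⟨π, fun S => ⟨fun h => ?_, fun h => ?_⟩⟩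
  · have h3 := switch_map hY' hY π.symm ψ.symm φ.symm (fun e T => by
      have := hψ (ψ.symm e) (φ.symm T)
      rw [Equiv.apply_symm_apply, RelIso.apply_symm_apply] at this
      exact this.symm) h2 _ h
    rw [Finset.map_map] at h3
    have h4 : π.toEmbedding.trans π.symm.toEmbedding = Function.Embedding.refl P := by
      ext x
      exact π.symm_apply_apply x
    rw [h4, Finset.map_refl] at h3
    exact h3
  · exact switch_map hY hY' π ψ φ hψ h1 S h

/-- A bijection of the points induces an isomorphism of the graphs. -/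
theorem lift_sys (π : P ≃ P') (hπ : ∀ S : Finset P, Y' (S.map π.toEmbedding) ↔ Y S) :
    Nonempty (col (inc Y) ≃g col (inc Y')) := by
  let τ : Tr P ≃ Tr P' :=
    { toFun := fun T => ⟨T.1.map π.toEmbedding, by rw [card_map, T.2]⟩
      invFun := fun T => ⟨T.1.map π.symm.toEmbedding, by rw [card_map, T.2]⟩
      left_inv := fun T => Subtype.ext (by
        ext x
        simp)
      right_inv := fun T => Subtype.ext (by
        ext x
        simp) }
  let ρ : Pr P ≃ Pr P' :=
    { toFun := fun T => ⟨T.1.map π.toEmbedding, by rw [card_map, T.2]⟩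
      invFun := fun T => ⟨T.1.map π.symm.toEmbedding, by rw [card_map, T.2]⟩
      left_inv := fun T => Subtype.ext (by
        ext x
        simp)
      right_inv := fun T => Subtype.ext (by
        ext x
        simp) }
  have hsurj : ∀ S' : Finset P', ∃ S : Finset P, S.map π.toEmbedding = S' := by
    intro S'
    refine ⟨S'.map π.symm.toEmbedding, ?_⟩
    ext x
    simp
  have hinc : ∀ e T, inc Y' (ρ e) (τ T) ↔ inc Y e T := by
    intro e T
    have e1 : (ρ e).1 = e.1.map π.toEmbedding := rfl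
    have e2 : (τ T).1 = T.1.map π.toEmbedding := rfl
    unfold inc
    rw [e1, e2]
    refine or_congr (and_congr map_subset_map ?_) ?_
    · constructor
      · intro h S hS hTS
        exact h _ ((hπ S).2 hS) (map_subset_map.2 hTS)
      · intro h S' hS' hTS'
        obtain ⟨S, rfl⟩ := hsurj S'
        exact h S ((hπ S).1 hS') (map_subset_map.1 hTS')
    · constructor
      · rintro ⟨S', hS', h1, h2, h3⟩
        obtain ⟨S, rfl⟩ := hsurj S'
        exact ⟨S, (hπ S).1 hS', map_subset_map.1 h1, map_subset_map.1 h2,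
          fun h => h3 (map_subset_map.2 h)⟩
      · rintro ⟨S, hS, h1, h2, h3⟩
        exact ⟨_, (hπ S).2 hS, map_subset_map.2 h1, map_subset_map.2 h2,
          fun h => h3 (map_subset_map.1 h)⟩
  refine ⟨⟨τ, ?_⟩⟩
  intro T T'
  refine and_congr τ.injective.ne_iff ?_
  constructor
  · rintro ⟨e, h1, h2⟩
    obtain ⟨e, rfl⟩ := ρ.surjective e
    exact ⟨e, (hinc e T).1 h1, (hinc e T').1 h2⟩
  · rintro ⟨e, h1, h2⟩
    exact ⟨ρ e, (hinc e T).2 h1, (hinc e T').2 h2⟩

end Pool.Agent.H677.JS
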