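import Pool.Agent.H677.JS.Lines

/-!
# Triangles and claws

For a family `Y` of 4-subsets of `P`, any two of which have at most two common elements, every
3-subset `T` of `P` is incident with three 2-subsets: the 2-subsets of `T` if `T` is contained in no
member of `Y`, and the 2-subsets `{d, x}` with `x ∈ T` if `T ∪ {d}` belongs to `Y`.
-/

set_option autoImplicit false
set_option linter.unusedSectionVars false

namespace Pool.Agent.H677.JS

open Finset

/-- The 2-subsets. -/
abbrev Pr (P : Type) := {e : Finset P // e.card = 2}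

/-- The 3-subsets. -/
abbrev Tr (P : Type) := {T : Finset P // T.card = 3}

variable {P : Type} [Fintype P] [DecidableEq P]

/-- A family of 4-subsets, any two of which have at most two common elements. -/
structure Sys (Y : Finset P → Prop) : Prop where
  four : ∀ S, Y S → S.card = 4
  two : ∀ S S', Y S → Y S' → 3 ≤ (S ∩ S').card → S = S'

/-- The incidence of 2-subsets and 3-subsets. -/
def inc (Y : Finset P → Prop) (e : Pr P) (T : Tr P) : Prop :=
  (e.1 ⊆ T.1 ∧ ∀ S, Y S → ¬ T.1 ⊆ S) ∨ ∃ S, Y S ∧ T.1 ⊆ S ∧ e.1 ⊆ S ∧ ¬ e.1 ⊆ T.1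

variable {Y : Finset P → Prop}

/-- The fourth element. -/
theorem Sys.fourth (hY : Sys Y) {S : Finset P} (hS : Y S) {T : Tr P} (hT : T.1 ⊆ S) :
    ∃ d, d ∉ T.1 ∧ S = insert d T.1 := by
  have h1 : (S \ T.1).card = 1 := by
    rw [card_sdiff_of_subset hT, hY.four S hS, T.2]
  obtain ⟨d, hd⟩ := card_eq_one.1 h1
  have h2 : d ∈ S \ T.1 := by rw [hd]; exact mem_singleton_self d
  refine ⟨d, (mem_sdiff.1 h2).2, ?_⟩
  ext x
  rw [mem_insert]
  constructor
  · intro hx
    by_cases hxT : x ∈ T.1
    · exact Or.inr hxT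
    · left
      have : x ∈ S \ T.1 := mem_sdiff.2 ⟨hx, hxT⟩
      rw [hd] at this
      exact mem_singleton.1 this
  · rintro (rfl | hx)
    · exact (mem_sdiff.1 h2).1
    · exact hT hx

theorem Sys.unique (hY : Sys Y) {S S' : Finset P} (hS : Y S) (hS' : Y S') {T : Finset P}
    (h3 : 3 ≤ T.card) (hT : T ⊆ S) (hT' : T ⊆ S') : S = S' :=
  hY.two S S' hS hS' (h3.trans (card_le_card (subset_inter hT hT')))

theorem inter_union {e f : Pr P} (hne : e ≠ f) (h : (e.1 ∩ f.1).Nonempty) :
    (e.1 ∪ f.1).card = 3 ∧ ∃ a, e.1 ∩ f.1 = {a} := by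
  have h1 := card_union_add_card_inter e.1 f.1
  rw [e.2, f.2] at h1
  have h2 : 0 < (e.1 ∩ f.1).card := card_pos.2 h
  have h3 : (e.1 ∩ f.1).card ≠ 2 := by
    intro h3
    apply hne
    apply Subtype.ext
    have h4 : e.1 ∩ f.1 = e.1 := eq_of_subset_of_card_le inter_subset_left (by rw [h3, e.2])
    have h5 : e.1 ∩ f.1 = f.1 := eq_of_subset_of_card_le inter_subset_right (by rw [h3, f.2])
    rw [← h4, h5]
  have h4 : (e.1 ∩ f.1).card ≤ 2 := (card_le_card inter_subset_left).trans e.2.le
  refine ⟨by omega, card_eq_one.1 (by omega)⟩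

theorem inc_exists (hY : Sys Y) {e f : Pr P} (hne : e ≠ f) (h : (e.1 ∩ f.1).Nonempty) :
    ∃ T, inc Y e T ∧ inc Y f T := by
  obtain ⟨h3, a, ha⟩ := inter_union hne h
  have hae : a ∈ e.1 ∩ f.1 := by rw [ha]; exact mem_singleton_self a
  rw [mem_inter] at hae
  by_cases hS : ∃ S, Y S ∧ e.1 ∪ f.1 ⊆ S
  · obtain ⟨S, hS, hsub⟩ := hS
    have haS : a ∈ S := hsub (mem_union_left _ hae.1)
    refine ⟨⟨S.erase a, by rw [card_erase_of_mem haS, hY.four S hS]⟩, Or.inr ⟨S, hS, ?_⟩,
      Or.inr ⟨S, hS, ?_⟩⟩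
    · refine ⟨erase_subset _ _, (subset_union_left).trans hsub, fun h4 => ?_⟩
      exact (mem_erase.1 (h4 hae.1)).1 rfl
    · refine ⟨erase_subset _ _, (subset_union_right).trans hsub, fun h4 => ?_⟩
      exact (mem_erase.1 (h4 hae.2)).1 rfl
  · refine ⟨⟨e.1 ∪ f.1, h3⟩, Or.inl ⟨subset_union_left, ?_⟩, Or.inl ⟨subset_union_right, ?_⟩⟩
    · exact fun S hS' h4 => hS ⟨S, hS', h4⟩
    · exact fun S hS' h4 => hS ⟨S, hS', h4⟩

/-- Two 2-subsets that are incident with the same 3-subset. -/
theorem inc_both (hY : Sys Y) {e f : Pr P} {T : Tr P} (he : inc Y e T) (hf : inc Y f T) :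
    (e.1 ⊆ T.1 ∧ f.1 ⊆ T.1 ∧ ∀ S, Y S → ¬ T.1 ⊆ S) ∨
      ∃ S d, Y S ∧ d ∉ T.1 ∧ S = insert d T.1 ∧ e.1 ⊆ S ∧ f.1 ⊆ S ∧ d ∈ e.1 ∧ d ∈ f.1 := by
  rcases he with ⟨he, hn⟩ | ⟨S, hS, hT, heS, heT⟩
  · rcases hf with ⟨hf, _⟩ | ⟨S, hS, hT, _⟩
    · exact Or.inl ⟨he, hf, hn⟩
    · exact absurd hT (hn S hS)
  · rcases hf with ⟨_, hn⟩ | ⟨S', hS', hT', hfS, hfT⟩
    · exact absurd hT (hn S hS)
    · have h1 := hY.unique hS hS' T.2.ge hT hT'
      subst h1
      obtain ⟨d, hd, h2⟩ := hY.fourth hS hT
      have key : ∀ g : Finset P, g ⊆ S → ¬ g ⊆ T.1 → d ∈ g := by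
        intro g hg hgT
        by_contra hdg
        apply hgT
        intro x hx
        have h3 := hg hx
        rw [h2, mem_insert] at h3
        rcases h3 with rfl | h3
        · exact absurd hx hdg
        · exact h3
      exact Or.inr ⟨S, d, hS, hd, h2, heS, hfS, key _ heS heT, key _ hfS hfT⟩

theorem inc_meet (hY : Sys Y) {e f : Pr P} {T : Tr P} (he : inc Y e T) (hf : inc Y f T) :
    (e.1 ∩ f.1).Nonempty := by
  rcases inc_both hY he hf with ⟨h1, h2, _⟩ | ⟨S, d, _, _, _, _, _, h1, h2⟩
  · rw [← card_pos]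
    have h3 := card_union_add_card_inter e.1 f.1
    have h4 := card_le_card (union_subset h1 h2)
    rw [e.2, f.2] at h3
    rw [T.2] at h4
    omega
  · exact ⟨d, mem_inter.2 ⟨h1, h2⟩⟩

theorem inc_unique (hY : Sys Y) (e f : Pr P) (hne : e ≠ f) (T T' : Tr P) (he : inc Y e T)
    (hf : inc Y f T) (he' : inc Y e T') (hf' : inc Y f T') : T = T' := by
  obtain ⟨h3, a, ha⟩ := inter_union hne (inc_meet hY he hf)
  have hsub : ∀ {T : Tr P}, e.1 ⊆ T.1 → f.1 ⊆ T.1 → T.1 = e.1 ∪ f.1 := by
    intro T h1 h2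
    exact (eq_of_subset_of_card_le (union_subset h1 h2) (by rw [h3, T.2])).symm
  have hd : ∀ {d : P}, d ∈ e.1 → d ∈ f.1 → d = a := by
    intro d h1 h2
    have : d ∈ e.1 ∩ f.1 := mem_inter.2 ⟨h1, h2⟩
    rw [ha] at this
    exact mem_singleton.1 this
  rcases inc_both hY he hf with ⟨h1, h2, h4⟩ | ⟨S, d, hS, hdT, hSd, h1, h2, h4, h5⟩
  · rcases inc_both hY he' hf' with ⟨h1', h2', _⟩ | ⟨S', d', hS', _, _, h1', h2', _, _⟩
    · exact Subtype.ext (by rw [hsub h1 h2, hsub h1' h2'])
    · refine absurd ?_ (h4 S' hS')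
      rw [hsub h1 h2]
      exact union_subset h1' h2'
  · rcases inc_both hY he' hf' with ⟨h1', h2', h4'⟩ | ⟨S', d', hS', hdT', hSd', h1', h2', h4', h5'⟩
    · refine absurd ?_ (h4' S hS)
      rw [hsub h1' h2']
      exact union_subset h1 h2
    · have h6 := hY.unique hS hS' h3.ge (union_subset h1 h2) (union_subset h1' h2')
      subst h6
      have h7 := hd h4 h5
      have h8 := hd h4' h5'
      subst h7
      subst h8
      apply Subtype.ext
      rw [← erase_insert hdT, ← erase_insert hdT', ← hSd, ← hSd']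

/-- Every 3-subset is incident with three 2-subsets. -/
theorem card_els (hY : Sys Y) (T : Tr P) : (els (inc Y) T).card = 3 := by
  by_cases h : ∃ S, Y S ∧ T.1 ⊆ S
  · obtain ⟨S, hS, hT⟩ := h
    obtain ⟨d, hd, hSd⟩ := hY.fourth hS hT
    have hne : ∀ x ∈ T.1, d ≠ x := by
      rintro x hx rfl
      exact hd hx
    conv_rhs => rw [← T.2]
    symm
    refine card_bij (fun x hx => (⟨{d, x}, card_pair (hne x hx)⟩ : Pr P)) ?_ ?_ ?_
    · intro x hx
      refine mem_els.2 (Or.inr ⟨S, hS, hT, ?_, ?_⟩)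
      · rw [hSd]
        intro y hy
        rw [mem_insert, mem_singleton] at hy
        rcases hy with rfl | rfl
        · exact mem_insert_self _ _
        · exact mem_insert_of_mem hx
      · exact fun h1 => hd (h1 (mem_insert_self _ _))
    · intro x hx y hy hxy
      have h1 : ({d, x} : Finset P) = {d, y} := congrArg Subtype.val hxy
      have h2 : x ∈ ({d, y} : Finset P) := by
        rw [← h1]
        exact mem_insert_of_mem (mem_singleton_self x)
      rw [mem_insert, mem_singleton] at h2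
      rcases h2 with h2 | h2
      · exact absurd h2.symm (hne x hx)
      · exact h2
    · intro e he
      have he := mem_els.1 he
      obtain ⟨S', d', hS', hd', hSd', heS, _, hde, _⟩ :
          ∃ S' d', Y S' ∧ d' ∉ T.1 ∧ S' = insert d' T.1 ∧ e.1 ⊆ S' ∧ e.1 ⊆ S' ∧ d' ∈ e.1 ∧
            d' ∈ e.1 := by
        rcases inc_both hY he he with ⟨_, _, h1⟩ | h1
        · exact absurd hT (h1 S hS)
        · exact h1
      have h1 := hY.unique hS hS' T.2.ge hT (by rw [hSd']; exact subset_insert _ _)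
      subst h1
      have h2 : d = d' := by
        have h3 : d ∈ S := by rw [hSd]; exact mem_insert_self _ _
        rw [hSd', mem_insert] at h3
        exact h3.resolve_right hd
      subst h2
      obtain ⟨x, hx⟩ : ∃ x, x ∈ e.1.erase d := by
        apply Finset.card_pos.1
        rw [card_erase_of_mem hde, e.2]
        norm_num
      have hxe := (mem_erase.1 hx).2
      have hxd := (mem_erase.1 hx).1
      have hxT : x ∈ T.1 := by
        have h3 := heS hxe
        rw [hSd, mem_insert] at h3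
        exact h3.resolve_left hxd
      refine ⟨x, hxT, Subtype.ext ?_⟩
      refine eq_of_subset_of_card_le ?_ ?_
      · intro y hy
        rw [mem_insert, mem_singleton] at hy
        rcases hy with rfl | rfl
        · exact hde
        · exact hxe
      · show e.1.card ≤ ({d, x} : Finset P).card
        rw [e.2, card_pair (Ne.symm hxd)]
  · have hn : ∀ S, Y S → ¬ T.1 ⊆ S := fun S hS hT => h ⟨S, hS, hT⟩
    conv_rhs => rw [← T.2]
    symm
    refine card_bij (fun x hx => (⟨T.1.erase x, by rw [card_erase_of_mem hx, T.2]⟩ : Pr P)) ?_ ?_ ?_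
    · exact fun x _ => mem_els.2 (Or.inl ⟨erase_subset _ _, hn⟩)
    · intro x hx y hy hxy
      have h1 : T.1.erase x = T.1.erase y := congrArg Subtype.val hxy
      by_contra hne
      have h2 : x ∈ T.1.erase y := mem_erase.2 ⟨hne, hx⟩
      rw [← h1] at h2
      exact (mem_erase.1 h2).1 rfl
    · intro e he
      have he := mem_els.1 he
      have heT : e.1 ⊆ T.1 := by
        rcases he with h1 | ⟨S, hS, hT, _⟩
        · exact h1.1
        · exact absurd hT (hn S hS)
      have h1 : (T.1 \ e.1).card = 1 := by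
        rw [card_sdiff_of_subset heT, T.2, e.2]
      obtain ⟨x, hx⟩ := card_eq_one.1 h1
      have h2 : x ∈ T.1 \ e.1 := by rw [hx]; exact mem_singleton_self x
      refine ⟨x, (mem_sdiff.1 h2).1, Subtype.ext ?_⟩
      symm
      refine eq_of_subset_of_card_le ?_ ?_
      · intro y hy
        refine mem_erase.2 ⟨?_, heT hy⟩
        rintro rfl
        exact (mem_sdiff.1 h2).2 hy
      · show (T.1.erase x).card ≤ e.1.card
        rw [card_erase_of_mem (mem_sdiff.1 h2).1, T.2, e.2]

/-- Incidence of points and 2-subsets. -/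
def incP (p : P) (e : Pr P) : Prop := p ∈ e.1

theorem card_els_incP (e : Pr P) : (els incP e).card = 2 := by
  have : els incP e = e.1 := by
    ext p
    exact mem_els
  rw [this, e.2]

/-- The number of 2-subsets that contain an element. -/
theorem card_bls_incP (p : P) : (bls incP p).card = Fintype.card P - 1 := by
  rw [← Finset.card_univ, ← card_erase_of_mem (mem_univ p)]
  symm
  refine card_bij (fun x hx => (⟨{p, x}, card_pair (Ne.symm (mem_erase.1 hx).1)⟩ : Pr P)) ?_ ?_ ?_
  · exact fun x _ => mem_bls.2 (mem_insert_self _ _)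
  · intro x hx y hy hxy
    have h1 : ({p, x} : Finset P) = {p, y} := congrArg Subtype.val hxy
    have h2 : x ∈ ({p, y} : Finset P) := by
      rw [← h1]
      exact mem_insert_of_mem (mem_singleton_self x)
    rw [mem_insert, mem_singleton] at h2
    exact h2.resolve_left (mem_erase.1 hx).1
  · intro e he
    have he : p ∈ e.1 := (mem_bls (inc := incP) (e := p)).1 he
    obtain ⟨x, hx⟩ : ∃ x, x ∈ e.1.erase p := by
      apply Finset.card_pos.1
      rw [card_erase_of_mem he, e.2]
      norm_num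
    have hxe := (mem_erase.1 hx).2
    have hxp := (mem_erase.1 hx).1
    refine ⟨x, mem_erase.2 ⟨hxp, mem_univ _⟩, Subtype.ext ?_⟩
    refine eq_of_subset_of_card_le ?_ ?_
    · intro y hy
      rw [mem_insert, mem_singleton] at hy
      rcases hy with rfl | rfl
      · exact he
      · exact hxe
    · show e.1.card ≤ ({p, x} : Finset P).card
      rw [e.2, card_pair (Ne.symm hxp)]

theorem incP_unique (p q : P) (hne : p ≠ q) (e f : Pr P) (h1 : incP p e) (h2 : incP q e)
    (h3 : incP p f) (h4 : incP q f) : e = f := by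
  have key : ∀ e : Pr P, p ∈ e.1 → q ∈ e.1 → e.1 = {p, q} := by
    intro e h1 h2
    symm
    refine eq_of_subset_of_card_le ?_ ?_
    · intro y hy
      rw [mem_insert, mem_singleton] at hy
      rcases hy with rfl | rfl
      · exact h1
      · exact h2
    · rw [e.2, card_pair hne]
  exact Subtype.ext (by rw [key e h1 h2, key f h3 h4])

open Classical in
/-- The number of common elements. -/
theorem card_common (e f : Pr P) : (univ.filter fun p => incP p e ∧ incP p f).card =
    (e.1 ∩ f.1).card := by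
  congr 1
  ext p
  simp [incP]

theorem inter_card_of_ne {e f : Pr P} (hne : e ≠ f) :
    (e.1 ∩ f.1).card = if (e.1 ∩ f.1).Nonempty then 1 else 0 := by
  by_cases h : (e.1 ∩ f.1).Nonempty
  · rw [if_pos h]
    obtain ⟨_, a, ha⟩ := inter_union hne h
    rw [ha, card_singleton]
  · rw [if_neg h, card_eq_zero]
    exact not_nonempty_iff_eq_empty.1 h

open Classical in
/-- The number of 3-subsets that are incident with two given 2-subsets. -/
theorem card_both (hY : Sys Y) {e f : Pr P} (hne : e ≠ f) :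
    (univ.filter fun T => inc Y e T ∧ inc Y f T).card = (e.1 ∩ f.1).card := by
  rw [inter_card_of_ne hne]
  by_cases h : (e.1 ∩ f.1).Nonempty
  · rw [if_pos h, card_eq_one]
    obtain ⟨T, h1, h2⟩ := inc_exists hY hne h
    refine ⟨T, ?_⟩
    ext T'
    rw [mem_filter, mem_singleton]
    constructor
    · rintro ⟨_, h3, h4⟩
      exact inc_unique hY e f hne T' T h3 h4 h1 h2
    · rintro rfl
      exact ⟨mem_univ _, h1, h2⟩
  · rw [if_neg h, card_eq_zero]
    refine filter_eq_empty_iff.2 ?_
    rintro T _ ⟨h1, h2⟩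
    exact h (inc_meet hY h1 h2)

/-- The number of 3-subsets that are incident with a given 2-subset. -/
theorem card_bls (hY : Sys Y) (e : Pr P) : (bls (inc Y) e).card = Fintype.card P - 2 := by
  classical
  have hcard : 2 ≤ Fintype.card P := by
    rw [← e.2]
    exact card_le_univ _
  -- count pairs
  have h1 : ∑ f : Pr P, (univ.filter fun T => inc Y e T ∧ inc Y f T).card =
      (bls (inc Y) e).card * 3 := by
    have h2 : ∀ f : Pr P, (univ.filter fun T => inc Y e T ∧ inc Y f T).card =
        ∑ T ∈ bls (inc Y) e, if inc Y f T then 1 else 0 := by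
      intro f
      rw [← card_filter]
      congr 1
      ext T
      rw [mem_filter, mem_filter, mem_bls]
      exact ⟨fun h => h.2, fun h => ⟨mem_univ _, h⟩⟩
    simp only [h2]
    rw [sum_comm]
    have h3 : ∀ T ∈ bls (inc Y) e, ∑ f : Pr P, (if inc Y f T then 1 else 0) = 3 := by
      intro T _
      rw [← card_filter, ← card_els hY T]
      refine congrArg card (Finset.ext fun f => ?_)
      rw [mem_filter, mem_els]
      exact ⟨fun h => h.2, fun h => ⟨mem_univ _, h⟩⟩
    rw [sum_congr rfl h3, sum_const, smul_eq_mul]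
  have h2 : ∑ f : Pr P, (e.1 ∩ f.1).card = 2 * (Fintype.card P - 1) := by
    have h3 : ∀ f : Pr P, (e.1 ∩ f.1).card = ∑ p ∈ e.1, if p ∈ f.1 then 1 else 0 := by
      intro f
      rw [← card_filter]
      refine congrArg card (Finset.ext fun p => ?_)
      rw [mem_inter, mem_filter]
    simp only [h3]
    rw [sum_comm]
    have h4 : ∀ p ∈ e.1, ∑ f : Pr P, (if p ∈ f.1 then 1 else 0) = Fintype.card P - 1 := by
      intro p _
      rw [← card_filter, ← card_bls_incP p]
      refine congrArg card (Finset.ext fun f => ?_)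
      rw [mem_filter, mem_bls]
      exact ⟨fun h => h.2, fun h => ⟨mem_univ _, h⟩⟩
    rw [sum_congr rfl h4, sum_const, smul_eq_mul, e.2]
  rw [← add_sum_erase _ _ (mem_univ e)] at h1 h2
  have h3 : ∑ f ∈ univ.erase e, (univ.filter fun T => inc Y e T ∧ inc Y f T).card =
      ∑ f ∈ univ.erase e, (e.1 ∩ f.1).card :=
    sum_congr rfl fun f hf => card_both hY (Ne.symm (mem_erase.1 hf).1)
  have h4 : (univ.filter fun T => inc Y e T ∧ inc Y e T).card = (bls (inc Y) e).card := by
    congr 1
    ext T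
    rw [mem_filter, mem_bls]
    exact ⟨fun h => h.2.1, fun h => ⟨mem_univ _, h, h⟩⟩
  rw [inter_self, e.2] at h2
  rw [h3, h4] at h1
  omega

end Pool.Agent.H677.JS
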